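import Mathlib

/-! Two abstract facts: solving an equation by the variational principle, from a bound on the inverse
of the derivative near the part of the domain where the equation nearly holds; and a linear estimate. -/

open scoped Topology
open Set Metric Filter

noncomputable section

namespace Pool.Agent.K4H64.We

universe u

variable {E : Type u} [NormedAddCommGroup E] [NormedSpace ℝ E]

/-- **Solving an equation**: `F w = 0` can be solved if, at the points `w` of a compact set with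
`‖F w‖ + κ ‖w‖ ≤ ‖F 0‖`, the derivative of `F` has a bounded right inverse. -/
theorem solve {F : E → E} {S : Set E} (hS : IsCompact S) (h0 : (0:E) ∈ S)
    (hF : ContinuousOn F S) {κ K : ℝ} (hκ : 0 < κ) (hK : 0 ≤ K) (hκK : κ * K < 1)
    (hd : ∀ w ∈ S, ‖F w‖ + κ * ‖w‖ ≤ ‖F 0‖ → S ∈ 𝓝 w ∧ ∃ F' : E →L[ℝ] E, HasFDerivAt F F' w ∧
      ∃ u, F' u = - F w ∧ ‖u‖ ≤ K * ‖F w‖) :
    ∃ w ∈ S, F w = 0 ∧ κ * ‖w‖ ≤ ‖F 0‖ := by
  obtain ⟨w, hw, hmin⟩ := hS.exists_isMinOn ⟨0, h0⟩ (f := fun w => ‖F w‖ + κ * ‖w‖)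
    (hF.norm.add (continuousOn_const.mul continuous_norm.continuousOn))
  have h1 : ‖F w‖ + κ * ‖w‖ ≤ ‖F 0‖ := by
    have := hmin h0
    simpa using this
  obtain ⟨hSw, F', hF', u, hu, huK⟩ := hd w hw h1
  by_cases hFw : F w = 0
  · exact ⟨w, hw, hFw, by rw [hFw, norm_zero, zero_add] at h1; exact h1⟩
  exfalso
  have hpos : 0 < ‖F w‖ := norm_pos_iff.2 hFw
  -- a small step in the direction `u`
  have hu0 : u ≠ 0 := by
    rintro rfl
    rw [map_zero] at hu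
    exact hFw (neg_eq_zero.1 hu.symm)
  set c : ℝ := (1 - κ * K) / 2 * ‖F w‖ / ‖u‖ with hc
  have hun : 0 < ‖u‖ := norm_pos_iff.2 hu0
  have hc0 : 0 < c := by
    have : 0 < 1 - κ * K := by linarith
    positivity
  have h2 := (hF'.isLittleO.def hc0)
  have h3 : Tendsto (fun t : ℝ => w + t • u) (𝓝[>] 0) (𝓝 w) := by
    have h4 : Continuous (fun t : ℝ => w + t • u) := by fun_prop
    have h5 := h4.tendsto 0
    simp only [zero_smul, add_zero] at h5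
    exact h5.mono_left nhdsWithin_le_nhds
  have h4 : ∀ᶠ t : ℝ in 𝓝[>] 0, t < 1 := by
    have : ∀ᶠ t : ℝ in 𝓝 0, t < 1 := gt_mem_nhds one_pos
    exact this.filter_mono nhdsWithin_le_nhds
  have h5 : ∀ᶠ t : ℝ in 𝓝[>] 0, 0 < t := eventually_mem_nhdsWithin
  obtain ⟨t, ht1, ht2, ht3, ht4⟩ := ((h3.eventually h2).and ((h3.eventually hSw).and
    (h4.and h5))).exists
  simp only [add_sub_cancel_left] at ht1
  have h6 : ‖F w‖ + κ * ‖w‖ ≤ ‖F (w + t • u)‖ + κ * ‖w + t • u‖ := hmin ht2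
  have h7 : ‖F (w + t • u)‖ ≤ (1 - t) * ‖F w‖ + c * (t * ‖u‖) := by
    have h8 : F (w + t • u) = (F (w + t • u) - F w - F' (t • u)) + (1 - t) • F w := by
      rw [map_smul, hu, sub_smul, one_smul, smul_neg]
      abel
    rw [h8]
    refine (norm_add_le _ _).trans ?_
    rw [norm_smul, Real.norm_eq_abs, abs_of_pos (show (0:ℝ) < 1 - t by linarith)]
    rw [norm_smul, Real.norm_eq_abs, abs_of_pos ht4] at ht1
    linarith
  have h8 : ‖w + t • u‖ ≤ ‖w‖ + t * (K * ‖F w‖) := by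
    refine (norm_add_le _ _).trans ?_
    rw [norm_smul, Real.norm_eq_abs, abs_of_pos ht4]
    gcongr
  have h9 : c * (t * ‖u‖) = t * ((1 - κ * K) / 2 * ‖F w‖) := by
    rw [hc]; field_simp
  have h10 : κ * ‖w + t • u‖ ≤ κ * ‖w‖ + t * (κ * K) * ‖F w‖ := by
    have := mul_le_mul_of_nonneg_left h8 hκ.le
    linarith
  have h11 : 0 < t * ((1 - κ * K) / 2 * ‖F w‖) := by
    have : 0 < 1 - κ * K := by linarith
    positivity
  nlinarith

/-- quantities near a return: the forms `q`, `q'` at the start and at the end, `L` the derivative -/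
structure Ret (L : E →L[ℝ] E) (b b' b₀ : E →L[ℝ] ℝ) (R R' R₀ : E) (q q' : E → ℝ)
    (C η κ : ℝ) : Prop where
  bR : b R = 1
  b₀R : b₀ R₀ = 1
  LR : L R = R'
  bL : ∀ z, b' (L z) = b z
  nR : ‖R‖ ≤ C
  nR' : ‖R'‖ ≤ C
  nR₀ : ‖R₀‖ ≤ C
  nb' : ∀ z, |b' z| ≤ C * ‖z‖
  bb : ∀ z, |b z - b₀ z| ≤ η * ‖z‖
  bb' : ∀ z, |b' z - b₀ z| ≤ η * ‖z‖
  qq : ∀ z, |q' z - q z| ≤ η * ‖z‖ ^ 2
  ql : ∀ v w, |q' (v + w) - q' v| ≤ C * (‖v‖ * ‖w‖ + ‖w‖ ^ 2)
  inc : ∀ z, b z = 0 → q z + κ * ‖z‖ ^ 2 ≤ q' (L z) + η * ‖L z‖ ^ 2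

/-- the constants -/
def C2 (C : ℝ) : ℝ := 4 * C ^ 2 + 4 * C + 1

def C3 (C κ : ℝ) : ℝ := 1 + 4 * (C + 1) / κ

def KK (C κ : ℝ) : ℝ := 4 * C3 C κ * C2 C * (1 + C) + C ^ 2 + 1

lemma key_quad {C κ z δ η : ℝ} (hC : 0 ≤ C) (hκ : 0 < κ) (hz : 0 ≤ z) (hδ : 0 ≤ δ)
    (hη : 0 ≤ η) (hη1 : 6 * η ≤ κ) (hη2 : 2 * η ≤ 1)
    (h : κ * z ^ 2 ≤ η * z ^ 2 + C * (z * δ + δ ^ 2) + η * (z + δ) ^ 2) : z ≤ C3 C κ * δ := by
  have h1 : (z + δ) ^ 2 ≤ 2 * z ^ 2 + 2 * δ ^ 2 := by nlinarith [sq_nonneg (z - δ)]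
  have h2 : η * (z + δ) ^ 2 ≤ 2 * η * z ^ 2 + 2 * η * δ ^ 2 := by nlinarith
  have h3 : 2 * η * δ ^ 2 ≤ δ ^ 2 := by nlinarith [sq_nonneg δ]
  have h4 : 3 * η * z ^ 2 ≤ κ / 2 * z ^ 2 := by
    have : 3 * η ≤ κ / 2 := by linarith
    gcongr
  have h5 : κ / 2 * z ^ 2 ≤ (C + 1) * (z * δ + δ ^ 2) := by nlinarith [mul_nonneg hz hδ]
  unfold C3
  have h6 : 0 ≤ 4 * (C + 1) / κ := by positivity
  rcases le_total z δ with h7 | h7
  · nlinarith
  · have h8 : δ ^ 2 ≤ z * δ := by nlinarith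
    have h9 : κ / 2 * z ^ 2 ≤ 2 * (C + 1) * (z * δ) := by nlinarith
    rcases hz.eq_or_lt with h10 | h10
    · rw [← h10] at h7 ⊢
      nlinarith
    · have h11 : κ / 2 * z ≤ 2 * (C + 1) * δ := by
        by_contra hcon
        push Not at hcon
        nlinarith
      have h12 : z ≤ 4 * (C + 1) / κ * δ := by
        rw [div_mul_eq_mul_div, le_div_iff₀ hκ]
        linarith
      linarith

theorem Ret.est {L : E →L[ℝ] E} {b b' b₀ : E →L[ℝ] ℝ} {R R' R₀ : E} {q q' : E → ℝ}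
    {C η κ : ℝ} (h : Ret L b b' b₀ R R' R₀ q q' C η κ) (hC : 1 ≤ C) (hκ : 0 < κ) (hη : 0 ≤ η)
    (h1 : 6 * η ≤ κ) (h2 : 2 * C * η ≤ 1) (h3 : 4 * C3 C κ * C2 C * η ≤ 1) (u : E) :
    ‖u‖ ≤ KK C κ * ‖L (u - b₀ u • R₀) + b₀ u • R' - (u - b₀ u • R₀)‖ := by
  obtain ⟨v, hv⟩ : ∃ v, v = u - b₀ u • R₀ := ⟨_, rfl⟩
  rw [← hv]
  obtain ⟨g, hg⟩ : ∃ g, g = L v + b₀ u • R' - v := ⟨_, rfl⟩
  rw [← hg]
  obtain ⟨z, hz⟩ : ∃ z, z = v - b v • R := ⟨_, rfl⟩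
  have hC0 : 0 ≤ C := by linarith
  have hη2 : 2 * η ≤ 1 := by nlinarith
  have hb0v : b₀ v = 0 := by rw [hv, map_sub, map_smul, h.b₀R]; simp
  have hbv : |b v| ≤ η * ‖v‖ := by
    have := h.bb v
    rwa [hb0v, sub_zero] at this
  have hb'v : |b' v| ≤ η * ‖v‖ := by
    have := h.bb' v
    rwa [hb0v, sub_zero] at this
  have hbz : b z = 0 := by rw [hz, map_sub, map_smul, h.bR]; simp
  have hLz : L v = L z + b v • R' := by
    rw [hz, map_sub, map_smul, h.LR, sub_add_cancel]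
  have hg2 : g = L z + (b v + b₀ u) • R' - v := by
    rw [hg, hLz, add_smul]; abel
  have hb'R' : b' R' = 1 := by rw [← h.LR, h.bL, h.bR]
  have hb'g : b' g = b v + b₀ u - b' v := by
    rw [hg2, map_sub, map_add, map_smul, h.bL, hbz, hb'R']; simp
  have hb0u : |b₀ u| ≤ C * ‖g‖ + 2 * η * ‖v‖ := by
    have e1 : b₀ u = b' g - b v + b' v := by rw [hb'g]; ring
    have e2 := h.nb' g
    rw [e1]
    have e3 := abs_add_le (b' g - b v) (b' v)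
    have e4 := abs_sub (b' g) (b v)
    linarith
  have hvz : ‖v - z‖ ≤ C * η * ‖v‖ := by
    have e1 : v - z = b v • R := by rw [hz]; abel
    rw [e1, norm_smul, Real.norm_eq_abs]
    calc |b v| * ‖R‖ ≤ (η * ‖v‖) * C := by
          apply mul_le_mul hbv h.nR (norm_nonneg _) (by positivity)
      _ = C * η * ‖v‖ := by ring
  -- the displacement
  obtain ⟨δ, hδ⟩ : ∃ δ, δ = C2 C * (‖g‖ + η * ‖v‖) := ⟨_, rfl⟩
  have hC2 : 0 ≤ C2 C := by unfold C2; positivity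
  have hδ0 : 0 ≤ δ := by rw [hδ]; positivity
  have hdisp : ‖L z - z‖ ≤ δ := by
    have e1 : L z - z = g - (b v + b₀ u) • R' + (v - z) := by rw [hg2]; abel
    rw [e1]
    refine (norm_add_le _ _).trans ?_
    refine (add_le_add (norm_sub_le _ _) hvz).trans ?_
    rw [norm_smul, Real.norm_eq_abs]
    have e2 : |b v + b₀ u| * ‖R'‖ ≤ (3 * η * ‖v‖ + C * ‖g‖) * C := by
      apply mul_le_mul _ h.nR' (norm_nonneg _) (by positivity)
      have := abs_add_le (b v) (b₀ u)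
      linarith
    rw [hδ]
    unfold C2
    have e4 : 0 ≤ ‖g‖ := norm_nonneg _
    have e5 : 0 ≤ η * ‖v‖ := by positivity
    have e6 : 0 ≤ C * ‖g‖ := by positivity
    have e7 : 0 ≤ C ^ 2 * ‖g‖ := by positivity
    have e8 : 0 ≤ C ^ 2 * (η * ‖v‖) := by positivity
    nlinarith
  have hz0 : ‖z‖ ≤ C3 C κ * δ := by
    apply key_quad hC0 hκ (norm_nonneg _) hδ0 hη h1 hη2
    have e1 := h.inc z hbz
    have e2 := h.ql z (L z - z)
    rw [add_sub_cancel] at e2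
    have e3 := h.qq z
    have e4 : ‖L z‖ ≤ ‖z‖ + δ := by
      have e5 : L z = z + (L z - z) := by abel
      rw [e5]
      exact (norm_add_le _ _).trans (by linarith)
    have e5 : η * ‖L z‖ ^ 2 ≤ η * (‖z‖ + δ) ^ 2 := by gcongr
    have e6 : C * (‖z‖ * ‖L z - z‖ + ‖L z - z‖ ^ 2) ≤ C * (‖z‖ * δ + δ ^ 2) := by gcongr
    have e7 := (abs_le.1 e2).2
    have e8 := (abs_le.1 e3).2
    linarith
  have hC3 : 1 ≤ C3 C κ := by
    unfold C3
    have : 0 ≤ 4 * (C + 1) / κ := by positivity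
    linarith
  have hvv : ‖v‖ ≤ 2 * ‖z‖ := by
    have e1 : ‖v‖ ≤ ‖z‖ + ‖v - z‖ := by
      have e2 : v = z + (v - z) := by abel
      calc ‖v‖ = ‖z + (v - z)‖ := by rw [← e2]
        _ ≤ _ := norm_add_le _ _
    have e2 : C * η * ‖v‖ ≤ 1 / 2 * ‖v‖ := by
      have : C * η ≤ 1 / 2 := by linarith
      gcongr
    linarith
  have hvg : ‖v‖ ≤ 4 * C3 C κ * C2 C * ‖g‖ := by
    have e1 : ‖v‖ ≤ 2 * (C3 C κ * (C2 C * (‖g‖ + η * ‖v‖))) := by
      rw [← hδ]; linarith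
    have e2 : 2 * (C3 C κ * (C2 C * (η * ‖v‖))) ≤ 1 / 2 * ‖v‖ := by
      have e3 : 2 * (C3 C κ * (C2 C * (η * ‖v‖))) = (4 * C3 C κ * C2 C * η) * (1 / 2 * ‖v‖) := by
        ring
      rw [e3]
      exact mul_le_of_le_one_left (by positivity) h3
    nlinarith
  have hfin : ‖u‖ ≤ ‖v‖ + |b₀ u| * C := by
    have e1 : u = v + b₀ u • R₀ := by rw [hv]; abel
    have e2 : ‖u‖ ≤ ‖v‖ + ‖b₀ u • R₀‖ := by
      calc ‖u‖ = ‖v + b₀ u • R₀‖ := by rw [← e1]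
        _ ≤ _ := norm_add_le _ _
    rw [norm_smul, Real.norm_eq_abs] at e2
    have e3 := mul_le_mul_of_nonneg_left h.nR₀ (abs_nonneg (b₀ u))
    linarith
  have e1 : |b₀ u| * C ≤ (C * ‖g‖ + 2 * η * ‖v‖) * C := by gcongr
  have e2 : 2 * η * ‖v‖ * C ≤ ‖v‖ := by
    have : 2 * η * ‖v‖ * C = (2 * C * η) * ‖v‖ := by ring
    rw [this]
    exact mul_le_of_le_one_left (norm_nonneg _) h2
  have e3 : ‖u‖ ≤ 2 * ‖v‖ + C ^ 2 * ‖g‖ := by nlinarith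
  unfold KK
  have e4 : 0 ≤ ‖g‖ := norm_nonneg _
  have e5 : 0 ≤ 4 * C3 C κ * C2 C * ‖g‖ := by positivity
  have e6 : 2 * ‖v‖ ≤ 4 * C3 C κ * C2 C * ‖g‖ * (1 + C) := by
    nlinarith
  nlinarith

end Pool.Agent.K4H64.We
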