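import Mathlib
import Pool.Agent.R774.Hyp6
import Pool.Agent.K4H64.We.Lin

/-! Closing lemma for strict contact maps near a point, modulo the Reeb flow: the estimates in a chart. -/

open scoped Topology ContDiff Manifold
open Set Metric Bundle Filter Pool.Agent.Helper186 Pool.Agent.H826R2.Wein Pool.Agent.W671.WU
open Pool.Agent.R774.Root Pool.Agent.R774.Hyp

noncomputable section

namespace Pool.Agent.K4H64.We

set_option linter.unusedSectionVars false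

universe u

variable {E : Type u} [NormedAddCommGroup E] [NormedSpace ℝ E] [FiniteDimensional ℝ E]
  {P : Type*} [TopologicalSpace P] [ChartedSpace E P] [IsManifold 𝓘(ℝ, E) ∞ P]
  {F : Type*} [NormedAddCommGroup F] [NormedSpace ℝ F]
  {β : (x : P) → TangentSpace 𝓘(ℝ, E) x →L[ℝ] ℝ}
  {R : (x : P) → TangentSpace 𝓘(ℝ, E) x} {Fl : P → ℝ → P}

/-- the quadratic form (as a bilinear form) in the chart at `a` -/
def Ql (B : P → F →L[ℝ] F →L[ℝ] ℝ) (e : P → F) (a : P) (p : E) : E →L[ℝ] E →L[ℝ] ℝ :=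
  (B ((extChartAt 𝓘(ℝ, E) a).symm p)).bilinearComp (fderiv ℝ (cf a e) p) (fderiv ℝ (cf a e) p)

lemma Ql_apply (B : P → F →L[ℝ] F →L[ℝ] ℝ) (e : P → F) (a : P) (p z w : E) :
    Ql B e a p z w = B ((extChartAt 𝓘(ℝ, E) a).symm p) (fderiv ℝ (cf a e) p z)
      (fderiv ℝ (cf a e) p w) := rfl

lemma contAt_dcf {e : P → F} (he : ContMDiff 𝓘(ℝ, E) 𝓘(ℝ, F) ∞ e) (a : P) {p : E}
    (hp : p ∈ (extChartAt 𝓘(ℝ, E) a).target) : ContinuousAt (fderiv ℝ (cf a e)) p := by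
  have h1 : ContDiffAt ℝ ∞ (cf a e) p := by
    rw [← contMDiffAt_iff_contDiffAt]
    exact (he _).comp p ((contMDiffOn_extChartAt_symm a).contMDiffAt
      ((isOpen_extChartAt_target a).mem_nhds hp))
  exact (h1.fderiv_right (m := 0) (by simp)).continuousAt

lemma contAt_Ql {B : P → F →L[ℝ] F →L[ℝ] ℝ} {e : P → F}
    (he : ContMDiff 𝓘(ℝ, E) 𝓘(ℝ, F) ∞ e) (a : P) {p : E}
    (hp : p ∈ (extChartAt 𝓘(ℝ, E) a).target)
    (hB : ContinuousAt B ((extChartAt 𝓘(ℝ, E) a).symm p)) : ContinuousAt (Ql B e a) p := by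
  have h1 : ContinuousAt (fun p => B ((extChartAt 𝓘(ℝ, E) a).symm p)) p :=
    ContinuousAt.comp hB ((continuousOn_extChartAt_symm a).continuousAt
      ((isOpen_extChartAt_target a).mem_nhds hp))
  have h2 := contAt_dcf he a hp
  have h3 : ContinuousAt (fun p => (B ((extChartAt 𝓘(ℝ, E) a).symm p)).comp
      (fderiv ℝ (cf a e) p)) p := h1.clm_comp h2
  -- `Ql = (flip ∘ (comp) ∘ flip)`
  have h4 : ∀ p, Ql B e a p = (((B ((extChartAt 𝓘(ℝ, E) a).symm p)).comp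
      (fderiv ℝ (cf a e) p)).flip.comp (fderiv ℝ (cf a e) p)).flip := by
    intro p
    ext z w
    rfl
  have h5 : ContinuousAt (fun p => ((B ((extChartAt 𝓘(ℝ, E) a).symm p)).comp
      (fderiv ℝ (cf a e) p)).flip) p :=
    (ContinuousLinearMap.flipₗᵢ ℝ E F ℝ).continuous.continuousAt.comp h3
  have h6 : ContinuousAt (fun p => (((B ((extChartAt 𝓘(ℝ, E) a).symm p)).comp
      (fderiv ℝ (cf a e) p)).flip.comp (fderiv ℝ (cf a e) p)).flip) p :=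
    (ContinuousLinearMap.flipₗᵢ ℝ E E ℝ).continuous.continuousAt.comp (h5.clm_comp h2)
  exact h6.congr (Filter.Eventually.of_forall fun p => (h4 p).symm)

/-- expansion of the quadratic form by `φ` in the chart at `a`, for points of the ball of radius `r`
around `p₀` with image in this ball -/
def Exp (β : (x : P) → TangentSpace 𝓘(ℝ, E) x →L[ℝ] ℝ) (B : P → F →L[ℝ] F →L[ℝ] ℝ) (e : P → F)
    (a : P) (p₀ : E) (r κ : ℝ) (φ : P → P) : Prop :=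
  ∀ p ∈ closedBall p₀ r, φ ((extChartAt 𝓘(ℝ, E) a).symm p) ∈ (extChartAt 𝓘(ℝ, E) a).source →
    ch2 a a φ p ∈ closedBall p₀ r → ∀ z, chartForm 𝓘(ℝ, E) β a p z = 0 →
      Ql B e a p z z + κ * ‖z‖ ^ 2 ≤
        Ql B e a (ch2 a a φ p) (fderiv ℝ (ch2 a a φ) p z) (fderiv ℝ (ch2 a a φ) p z)

/-- a good ball -/
structure Good (β : (x : P) → TangentSpace 𝓘(ℝ, E) x →L[ℝ] ℝ) (Fl : P → ℝ → P)
    (B : P → F →L[ℝ] F →L[ℝ] ℝ) (e : P → F) (a : P) (p₀ : E) (η r : ℝ) : Prop where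
  tgt : closedBall p₀ r ⊆ (extChartAt 𝓘(ℝ, E) a).target
  b : ∀ p ∈ closedBall p₀ r, ‖chartForm 𝓘(ℝ, E) β a p - chartForm 𝓘(ℝ, E) β a p₀‖ ≤ η
  R : ∀ p ∈ closedBall p₀ r, ‖RF.Rc Fl a p - RF.Rc Fl a p₀‖ ≤ η
  Q : ∀ p ∈ closedBall p₀ r, ‖Ql B e a p - Ql B e a p₀‖ ≤ η
  src : ∀ p ∈ closedBall p₀ r, ∀ s, |s| ≤ r →
    Fl ((extChartAt 𝓘(ℝ, E) a).symm p) s ∈ (extChartAt 𝓘(ℝ, E) a).source
  H : ∀ p ∈ closedBall p₀ r, ∀ s, |s| ≤ r →
    ‖fderiv ℝ (RF.H Fl a) (p, s) - fderiv ℝ (RF.H Fl a) (p₀, 0)‖ ≤ η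

lemma near_lift {G : Type*} [NormedAddCommGroup G] {f : E → G} {p₀ : E} (hf : ContinuousAt f p₀)
    {η : ℝ} (hη : 0 < η) : ∀ᶠ q : E × ℝ in 𝓝 (p₀, 0), ‖f q.1 - f p₀‖ ≤ η := by
  have h1 : ContinuousAt (fun q : E × ℝ => ‖f q.1 - f p₀‖) (p₀, 0) :=
    ((ContinuousAt.comp (x := ((p₀, 0) : E × ℝ)) (f := Prod.fst) (g := f) hf
      continuousAt_fst).sub continuousAt_const).norm
  have h2 := h1.eventually (gt_mem_nhds (show ‖f p₀ - f p₀‖ < η by simpa using hη))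
  exact h2.mono fun _ h => le_of_lt h

lemma exists_good (c : CD β R) (h : RF β R Fl) {B : P → F →L[ℝ] F →L[ℝ] ℝ} {e : P → F}
    (he : ContMDiff 𝓘(ℝ, E) 𝓘(ℝ, F) ∞ e) (a : P) {p₀ : E}
    (hp : p₀ ∈ (extChartAt 𝓘(ℝ, E) a).target)
    (hB : ContinuousAt B ((extChartAt 𝓘(ℝ, E) a).symm p₀)) {η : ℝ} (hη : 0 < η) :
    ∃ r > 0, ∀ r' ≤ r, Good β Fl B e a p₀ η r' := by
  have hsrc0 : Fl ((extChartAt 𝓘(ℝ, E) a).symm p₀) 0 ∈ (extChartAt 𝓘(ℝ, E) a).source := by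
    rw [h.zero]; exact (extChartAt 𝓘(ℝ, E) a).map_target hp
  have hFl : ContinuousAt (fun q : E × ℝ => Fl ((extChartAt 𝓘(ℝ, E) a).symm q.1) q.2) (p₀, 0) := by
    have h1 : ContinuousAt (fun q : E × ℝ => ((extChartAt 𝓘(ℝ, E) a).symm q.1, q.2)) (p₀, 0) := by
      refine ContinuousAt.prodMk ?_ continuousAt_snd
      exact ContinuousAt.comp (x := ((p₀, 0) : E × ℝ)) (f := Prod.fst)
        (g := (extChartAt 𝓘(ℝ, E) a).symm) ((continuousOn_extChartAt_symm a).continuousAt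
          ((isOpen_extChartAt_target a).mem_nhds hp)) continuousAt_fst
    exact h.smooth.continuous.continuousAt.comp h1
  have e1 : ∀ᶠ q : E × ℝ in 𝓝 (p₀, 0), q.1 ∈ (extChartAt 𝓘(ℝ, E) a).target :=
    (continuous_fst.tendsto ((p₀, 0) : E × ℝ)).eventually
      ((isOpen_extChartAt_target a).mem_nhds hp)
  have e2 := near_lift (contAt_b c a hp) hη
  have e3 := near_lift (h.continuousAt_Rc a hp) hη
  have e4 := near_lift (G := E →L[ℝ] E →L[ℝ] ℝ) (f := Ql B e a) (contAt_Ql he a hp hB) hη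
  have e5 : ∀ᶠ q : E × ℝ in 𝓝 (p₀, 0), Fl ((extChartAt 𝓘(ℝ, E) a).symm q.1) q.2 ∈
      (extChartAt 𝓘(ℝ, E) a).source := hFl.eventually ((isOpen_extChartAt_source a).mem_nhds hsrc0)
  have e6 : ∀ᶠ q : E × ℝ in 𝓝 (p₀, 0),
      ‖fderiv ℝ (RF.H Fl a) q - fderiv ℝ (RF.H Fl a) (p₀, 0)‖ ≤ η := by
    have h1 : ContinuousAt (fun q => ‖fderiv ℝ (RF.H Fl a) q - fderiv ℝ (RF.H Fl a) (p₀, 0)‖)
        (p₀, 0) := ((h.continuousAt_fderiv_H a (q := (p₀, 0)) hp hsrc0).sub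
          continuousAt_const).norm
    have h2 := h1.eventually (gt_mem_nhds (show ‖fderiv ℝ (RF.H Fl a) (p₀, 0) -
      fderiv ℝ (RF.H Fl a) (p₀, 0)‖ < η by simpa using hη))
    exact h2.mono fun _ h => le_of_lt h
  obtain ⟨ρ, hρ, hball⟩ := Metric.eventually_nhds_iff.1 (e1.and (e2.and (e3.and (e4.and
    (e5.and e6)))))
  refine ⟨ρ / 2, by positivity, fun r' hr' => ?_⟩
  have key : ∀ p ∈ closedBall p₀ r', ∀ s, |s| ≤ r' → dist ((p, s) : E × ℝ) (p₀, 0) < ρ := by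
    intro p hp s hs
    rw [mem_closedBall] at hp
    rw [Prod.dist_eq]
    apply max_lt
    · simp only; linarith
    · simp only [Real.dist_eq, sub_zero]; linarith
  have key0 : ∀ p ∈ closedBall p₀ r', dist ((p, 0) : E × ℝ) (p₀, 0) < ρ := by
    intro p hp
    rw [mem_closedBall] at hp
    rw [Prod.dist_eq]
    apply max_lt
    · simp only; linarith
    · simp only [dist_self]; linarith
  exact ⟨fun p hp => (hball (key0 p hp)).1, fun p hp => (hball (key0 p hp)).2.1,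
    fun p hp => (hball (key0 p hp)).2.2.1, fun p hp => (hball (key0 p hp)).2.2.2.1,
    fun p hp s hs => (hball (key p hp s hs)).2.2.2.2.1,
    fun p hp s hs => (hball (key p hp s hs)).2.2.2.2.2⟩

end Pool.Agent.K4H64.We
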