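import Mathlib
import Pool.Agent.R774.Hyp6

/-! Recurrence for injective strict contact maps: every open set returns, because of the contact
volume. -/

open scoped Topology ContDiff Manifold
open Set Metric Bundle Filter Pool.Agent.Helper186 Pool.Agent.H826R2.Wein Pool.Agent.W671.WU
open Pool.Agent.R774.Root Pool.Agent.R774.Hyp
open MeasureTheory Module

noncomputable section

namespace Pool.Agent.K4H64.We

set_option linter.unusedSectionVars false

universe u

section Gram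

variable {ι E : Type*} [Fintype ι] [DecidableEq ι] [NormedAddCommGroup E] [NormedSpace ℝ E]

/-- Gram determinant of a bilinear form. -/
def gram (B : E →L[ℝ] E →L[ℝ] ℝ) (v : ι → E) : ℝ :=
  (Matrix.of fun i j => B (v i) (v j)).det

lemma gram_comp (B : E →L[ℝ] E →L[ℝ] ℝ) (b : Basis ι ℝ E) (L : E →ₗ[ℝ] E) :
    gram B (fun i => L (b i)) = (LinearMap.det L) ^ 2 * gram B b := by
  have h : (Matrix.of fun i j => B (L (b i)) (L (b j))) =
      (LinearMap.toMatrix b b L).transpose * (Matrix.of fun i j => B (b i) (b j)) *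
        (LinearMap.toMatrix b b L) := by
    ext i j
    have h1 : ∀ i, L (b i) = ∑ k, (LinearMap.toMatrix b b L) k i • b k := by
      intro i
      simp only [LinearMap.toMatrix_apply]
      exact (b.sum_repr (L (b i))).symm
    have h2 : B (L (b i)) (L (b j)) = ∑ l, ∑ k, (LinearMap.toMatrix b b L) l j *
        ((LinearMap.toMatrix b b L) k i * B (b k) (b l)) := by
      rw [h1 j, map_sum]
      refine Finset.sum_congr rfl fun l _ => ?_
      rw [map_smul, smul_eq_mul, h1 i, map_sum, _root_.sum_apply, Finset.mul_sum]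
      refine Finset.sum_congr rfl fun k _ => ?_
      rw [map_smul, _root_.smul_apply, smul_eq_mul]
    simp only [Matrix.of_apply, Matrix.mul_apply, Matrix.transpose_apply]
    rw [h2]
    refine Finset.sum_congr rfl fun l _ => ?_
    rw [Finset.sum_mul]
    refine Finset.sum_congr rfl fun k _ => ?_
    ring
  unfold gram
  rw [h, Matrix.det_mul, Matrix.det_mul, Matrix.det_transpose, LinearMap.det_toMatrix]
  ring

lemma gram_ne_zero (B : E →L[ℝ] E →L[ℝ] ℝ) (b : Basis ι ℝ E)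
    (hB : ∀ u, (∀ v, B u v = 0) → u = 0) : gram B b ≠ 0 := by
  intro h0
  obtain ⟨x, hx0, hx⟩ := Matrix.exists_vecMul_eq_zero_iff.2 h0
  apply hx0
  have h1 : ∑ i, x i • b i = 0 := by
    apply hB
    intro v
    have h2 : ∀ j, B (∑ i, x i • b i) (b j) = 0 := by
      intro j
      have h3 := congrFun hx j
      rw [Pi.zero_apply] at h3
      rw [← h3, map_sum, _root_.sum_apply]
      simp only [Matrix.vecMul, dotProduct, Matrix.of_apply, map_smul, _root_.smul_apply,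
        smul_eq_mul]
    have h4 : (B (∑ i, x i • b i) : E →ₗ[ℝ] ℝ) = 0 := b.ext fun j => h2 j
    exact DFunLike.congr_fun h4 v
  funext i
  have := Fintype.linearIndependent_iff.1 b.linearIndependent x h1 i
  exact this

end Gram

variable {E : Type u} [NormedAddCommGroup E] [NormedSpace ℝ E] [FiniteDimensional ℝ E]
  {P : Type*} [TopologicalSpace P] [ChartedSpace E P] [IsManifold 𝓘(ℝ, E) ∞ P]
  {β : (x : P) → TangentSpace 𝓘(ℝ, E) x →L[ℝ] ℝ}
  {R : (x : P) → TangentSpace 𝓘(ℝ, E) x} {Fl : P → ℝ → P}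

/-- the bilinear form `β ⊗ β + dβ` in the chart at `a` -/
def hbc (β : (x : P) → TangentSpace 𝓘(ℝ, E) x →L[ℝ] ℝ) (a : P) (p : E) : E →L[ℝ] E →L[ℝ] ℝ :=
  (chartForm 𝓘(ℝ, E) β a p).smulRight (chartForm 𝓘(ℝ, E) β a p) +
    (fderiv ℝ (chartForm 𝓘(ℝ, E) β a) p - (fderiv ℝ (chartForm 𝓘(ℝ, E) β a) p).flip)

lemma hbc_eq (c : CD β R) (a : P) {p : E} (hp : p ∈ (extChartAt 𝓘(ℝ, E) a).target) (u v : E) :
    HB β ((extChartAt 𝓘(ℝ, E) a).symm p) (ds a p u) (ds a p v) = hbc β a p u v := by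
  rw [HB_apply]
  have h3 := extDer_pullback c.contact.smooth (isOpen_extChartAt_target (I := 𝓘(ℝ, E)) a)
    (contMDiffOn_extChartAt_symm a) hp u v
  have hd : DifferentiableAt ℝ (chartForm 𝓘(ℝ, E) β a) p :=
    ((contDiffOn_chartForm c.contact.smooth a).contDiffAt
      ((isOpen_extChartAt_target a).mem_nhds hp)).differentiableAt (by simp)
  have h4 : ∀ w d : E, fderiv ℝ (fun q => β ((extChartAt 𝓘(ℝ, E) a).symm q)
      (mfderiv 𝓘(ℝ, E) 𝓘(ℝ, E) (extChartAt 𝓘(ℝ, E) a).symm q d)) p w =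
      fderiv ℝ (chartForm 𝓘(ℝ, E) β a) p w d := by
    intro w d
    have h5 : HasFDerivAt (fun q => chartForm 𝓘(ℝ, E) β a q d)
        ((ContinuousLinearMap.apply ℝ ℝ d).comp (fderiv ℝ (chartForm 𝓘(ℝ, E) β a) p)) p :=
      (ContinuousLinearMap.apply ℝ ℝ d).hasFDerivAt.comp p hd.hasFDerivAt
    have h6 := h5.fderiv
    change fderiv ℝ (fun q => chartForm 𝓘(ℝ, E) β a q d) p w = _
    rw [h6]
    rfl
  rw [h4, h4] at h3
  have h5 : extDer 𝓘(ℝ, E) β ((extChartAt 𝓘(ℝ, E) a).symm p) (ds a p u) (ds a p v) =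
    fderiv ℝ (chartForm 𝓘(ℝ, E) β a) p u v - fderiv ℝ (chartForm 𝓘(ℝ, E) β a) p v u := h3
  rw [h5]
  rfl

lemma hbc_apply (a : P) (p u v : E) : hbc β a p u v =
    chartForm 𝓘(ℝ, E) β a p u * chartForm 𝓘(ℝ, E) β a p v +
      (fderiv ℝ (chartForm 𝓘(ℝ, E) β a) p u v - fderiv ℝ (chartForm 𝓘(ℝ, E) β a) p v u) := rfl

lemma contAt_hbc (c : CD β R) (a : P) {p : E} (hp : p ∈ (extChartAt 𝓘(ℝ, E) a).target)
    (u v : E) : ContinuousAt (fun p => hbc β a p u v) p := by
  have h1 : ContDiffAt ℝ ∞ (chartForm 𝓘(ℝ, E) β a) p :=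
    (contDiffOn_chartForm c.contact.smooth a).contDiffAt
      ((isOpen_extChartAt_target a).mem_nhds hp)
  have h2 : ContinuousAt (fderiv ℝ (chartForm 𝓘(ℝ, E) β a)) p :=
    (h1.fderiv_right (m := 0) (by simp)).continuousAt
  simp only [hbc_apply]
  exact ((h1.continuousAt.clm_apply continuousAt_const).mul
    (h1.continuousAt.clm_apply continuousAt_const)).add
    (((h2.clm_apply continuousAt_const).clm_apply continuousAt_const).sub
    ((h2.clm_apply continuousAt_const).clm_apply continuousAt_const))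

lemma hbc_ch2 (c : CD β R) {φ : P → P} (hφ : St β φ) (a b : P) {p : E}
    (hp : p ∈ (extChartAt 𝓘(ℝ, E) a).target)
    (hφp : φ ((extChartAt 𝓘(ℝ, E) a).symm p) ∈ (extChartAt 𝓘(ℝ, E) b).source) (u v : E) :
    hbc β b (ch2 a b φ p) (fderiv ℝ (ch2 a b φ) p u) (fderiv ℝ (ch2 a b φ) p v) =
      hbc β a p u v := by
  have hct : ch2 a b φ p ∈ (extChartAt 𝓘(ℝ, E) b).target := (extChartAt 𝓘(ℝ, E) b).map_source hφp
  rw [← hbc_eq c a hp, ← hbc_eq c b hct]
  have h1 := tangent_ch2 a b hφ.smooth hp hφp u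
  have h2 := tangent_ch2 a b hφ.smooth hp hφp v
  have key : ∀ (x y : P) (hxy : x = y) (u₁ v₁ : TangentSpace 𝓘(ℝ, E) x)
      (u₂ v₂ : TangentSpace 𝓘(ℝ, E) y), (⟨x, u₁⟩ : TangentBundle 𝓘(ℝ, E) P) = ⟨y, u₂⟩ →
      (⟨x, v₁⟩ : TangentBundle 𝓘(ℝ, E) P) = ⟨y, v₂⟩ → HB β x u₁ v₁ = HB β y u₂ v₂ := by
    rintro x _ rfl u₁ v₁ u₂ v₂ h1 h2
    have e1 : u₁ = u₂ := by simpa using h1
    have e2 : v₁ = v₂ := by simpa using h2
    rw [e1, e2]
  exact (key _ _ ((extChartAt 𝓘(ℝ, E) b).left_inv hφp) _ _ _ _ h1 h2).trans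
    (hφ.HB_push c.contact.smooth ((extChartAt 𝓘(ℝ, E) a).symm p) (ds a p u) (ds a p v))

lemma hbc_nondeg (c : CD β R) (a : P) {p : E} (hp : p ∈ (extChartAt 𝓘(ℝ, E) a).target) (u : E)
    (hu : ∀ v, hbc β a p u v = 0) : u = 0 := by
  have h1 : (ds a p u : E) = 0 := by
    apply HB_nondeg c.contact c.reeb ((extChartAt 𝓘(ℝ, E) a).symm p)
    intro v
    obtain ⟨w, hw⟩ := ds_surj hp v
    have h2 := hbc_eq c a hp u w
    rw [hu w] at h2
    rw [← h2]
    exact congrArg (fun t : E => HB β ((extChartAt 𝓘(ℝ, E) a).symm p) (ds a p u) t) hw.symm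
  exact ds_inj hp h1

/-- the density of the contact volume -/
def dens {ι : Type*} [Fintype ι] [DecidableEq ι]
    (β : (x : P) → TangentSpace 𝓘(ℝ, E) x →L[ℝ] ℝ) (bs : Basis ι ℝ E) (a : P) (p : E) : ℝ :=
  √|gram (hbc β a p) bs|

section

variable {ι : Type*} [Fintype ι] [DecidableEq ι] (bs : Basis ι ℝ E)

lemma dens_pos (c : CD β R) (a : P) {p : E} (hp : p ∈ (extChartAt 𝓘(ℝ, E) a).target) :
    0 < dens β bs a p :=
  Real.sqrt_pos.2 (abs_pos.2 (gram_ne_zero _ _ (hbc_nondeg c a hp)))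

lemma contAt_dens (c : CD β R) (a : P) {p : E} (hp : p ∈ (extChartAt 𝓘(ℝ, E) a).target) :
    ContinuousAt (dens β bs a) p := by
  have h2 : ContinuousAt (fun p => (Matrix.of fun i j => hbc β a p (bs i) (bs j))) p := by
    refine continuousAt_pi.2 fun i => continuousAt_pi.2 fun j => ?_
    exact contAt_hbc c a hp (bs i) (bs j)
  have h3 : ContinuousAt (fun p => (Matrix.of fun i j => hbc β a p (bs i) (bs j)).det) p :=
    (Continuous.matrix_det continuous_id).continuousAt.comp h2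
  exact Real.continuous_sqrt.continuousAt.comp h3.abs

lemma dens_ch2 (c : CD β R) {φ : P → P} (hφ : St β φ) (a b : P) {p : E}
    (hp : p ∈ (extChartAt 𝓘(ℝ, E) a).target)
    (hφp : φ ((extChartAt 𝓘(ℝ, E) a).symm p) ∈ (extChartAt 𝓘(ℝ, E) b).source) :
    dens β bs a p = |(fderiv ℝ (ch2 a b φ) p).det| * dens β bs b (ch2 a b φ p) := by
  unfold dens
  have h1 : gram (hbc β a p) bs = gram (hbc β b (ch2 a b φ p))
      (fun i => (fderiv ℝ (ch2 a b φ) p : E →ₗ[ℝ] E) (bs i)) := by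
    unfold gram
    congr 1
    ext i j
    exact (hbc_ch2 c hφ a b hp hφp (bs i) (bs j)).symm
  rw [h1, gram_comp, abs_mul, Real.sqrt_mul (abs_nonneg _), abs_of_nonneg (sq_nonneg _),
    Real.sqrt_sq_eq_abs]

end

end Pool.Agent.K4H64.We
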