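import Mathlib
import Pool.Agent.K4H64.We.Loc

/-! Closing lemma for strict contact maps near a point, modulo the Reeb flow. -/

open scoped Topology ContDiff Manifold
open Set Metric Bundle Filter Pool.Agent.Helper186 Pool.Agent.H826R2.Wein Pool.Agent.W671.WU
open Pool.Agent.R774.Root Pool.Agent.R774.Hyp

noncomputable section

namespace Pool.Agent.K4H64.We

set_option linter.unusedSectionVars false

universe u

variable {E : Type u} [NormedAddCommGroup E] [NormedSpace ℝ E] [FiniteDimensional ℝ E]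
  {P : Type*} [TopologicalSpace P] [ChartedSpace E P] [IsManifold 𝓘(ℝ, E) ∞ P]
  {F : Type*} [NormedAddCommGroup F] [NormedSpace ℝ F]
  {β : (x : P) → TangentSpace 𝓘(ℝ, E) x →L[ℝ] ℝ}
  {R : (x : P) → TangentSpace 𝓘(ℝ, E) x} {Fl : P → ℝ → P}

lemma norm_le_of_sub {G : Type*} [NormedAddCommGroup G] {a b : G} {η C : ℝ} (h : ‖a - b‖ ≤ η)
    (h2 : ‖b‖ + η ≤ C) : ‖a‖ ≤ C := by
  have h3 := norm_le_norm_add_norm_sub' a b
  linarith

lemma norm_sub_of_sub {G : Type*} [NormedAddCommGroup G] {a b d : G} {η : ℝ} (h : ‖a - d‖ ≤ η)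
    (h2 : ‖b - d‖ ≤ η) : ‖a - b‖ ≤ 2 * η := by
  have h3 := norm_sub_le_norm_sub_add_norm_sub a d b
  rw [norm_sub_rev d b] at h3
  linarith

lemma ret_of_good [T2Space P] (c : CD β R) (h : RF β R Fl) {B : P → F →L[ℝ] F →L[ℝ] ℝ}
    {e : P → F} {a : P} {p₀ : E} {η r κ C : ℝ} (hη : 0 ≤ η) (g : Good β Fl B e a p₀ η r)
    (hr : 0 ≤ r)
    (hCb : ‖chartForm 𝓘(ℝ, E) β a p₀‖ + η ≤ C) (hCR : ‖RF.Rc Fl a p₀‖ + η ≤ C)
    (hCQ : 2 * (‖Ql B e a p₀‖ + η) ≤ C)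
    {φ : P → P} (hφ : St β φ) (hE : Exp β B e a p₀ r κ φ) {p : E} (hp : p ∈ closedBall p₀ r)
    (hps : φ ((extChartAt 𝓘(ℝ, E) a).symm p) ∈ (extChartAt 𝓘(ℝ, E) a).source)
    (hpb : ch2 a a φ p ∈ closedBall p₀ r) :
    Ret (fderiv ℝ (ch2 a a φ) p) (chartForm 𝓘(ℝ, E) β a p) (chartForm 𝓘(ℝ, E) β a (ch2 a a φ p))
      (chartForm 𝓘(ℝ, E) β a p₀) (RF.Rc Fl a p) (RF.Rc Fl a (ch2 a a φ p)) (RF.Rc Fl a p₀)
      (fun z => Ql B e a p z z) (fun z => Ql B e a (ch2 a a φ p) z z) C (2 * η) κ := by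
  have hp0 : p₀ ∈ closedBall p₀ r := mem_closedBall_self hr
  have hpt := g.tgt hp
  have hpt' := g.tgt hpb
  have hpt0 := g.tgt hp0
  refine ⟨chartForm_Rc c h a hpt, chartForm_Rc c h a hpt0,
    Rc_ch2 h hφ.smooth (fun x s => hφ.comm c h x s) a a hpt hps,
    fun z => chartForm_ch2 a a hφ hpt hps z, ?_, ?_, ?_, ?_, ?_, ?_, ?_, ?_, ?_⟩
  · exact norm_le_of_sub (g.R p hp) hCR
  · exact norm_le_of_sub (g.R _ hpb) hCR
  · linarith
  · intro z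
    refine ((chartForm 𝓘(ℝ, E) β a (ch2 a a φ p)).le_opNorm z).trans ?_
    exact mul_le_mul_of_nonneg_right (norm_le_of_sub (g.b _ hpb) hCb) (norm_nonneg _)
  · intro z
    have h1 := (chartForm 𝓘(ℝ, E) β a p - chartForm 𝓘(ℝ, E) β a p₀).le_opNorm z
    refine h1.trans ?_
    have h2 := g.b p hp
    have h3 : ‖chartForm 𝓘(ℝ, E) β a p - chartForm 𝓘(ℝ, E) β a p₀‖ ≤ 2 * η := by linarith
    exact mul_le_mul_of_nonneg_right h3 (norm_nonneg _)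
  · intro z
    have h1 := (chartForm 𝓘(ℝ, E) β a (ch2 a a φ p) - chartForm 𝓘(ℝ, E) β a p₀).le_opNorm z
    refine h1.trans ?_
    have h2 := g.b _ hpb
    have h3 : ‖chartForm 𝓘(ℝ, E) β a (ch2 a a φ p) - chartForm 𝓘(ℝ, E) β a p₀‖ ≤ 2 * η := by
      linarith
    exact mul_le_mul_of_nonneg_right h3 (norm_nonneg _)
  · intro z
    have h1 := ContinuousLinearMap.le_opNorm₂ (Ql B e a (ch2 a a φ p) - Ql B e a p) z z
    have h2 : ‖Ql B e a (ch2 a a φ p) - Ql B e a p‖ ≤ 2 * η :=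
      norm_sub_of_sub (G := E →L[ℝ] E →L[ℝ] ℝ) (g.Q _ hpb) (g.Q p hp)
    have h3 : |Ql B e a (ch2 a a φ p) z z - Ql B e a p z z| ≤
        ‖Ql B e a (ch2 a a φ p) - Ql B e a p‖ * ‖z‖ * ‖z‖ := h1
    refine h3.trans ?_
    rw [mul_assoc, ← pow_two]
    exact mul_le_mul_of_nonneg_right h2 (by positivity)
  · intro v w
    have h2 : ‖Ql B e a (ch2 a a φ p)‖ ≤ ‖Ql B e a p₀‖ + η :=
      norm_le_of_sub (G := E →L[ℝ] E →L[ℝ] ℝ) (g.Q _ hpb) le_rfl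
    have e1 : Ql B e a (ch2 a a φ p) (v + w) (v + w) - Ql B e a (ch2 a a φ p) v v =
        Ql B e a (ch2 a a φ p) v w + Ql B e a (ch2 a a φ p) w v +
          Ql B e a (ch2 a a φ p) w w := by
      simp only [map_add, add_apply]
      ring
    have e4 : ∀ s s' : E, |Ql B e a (ch2 a a φ p) s s'| ≤
        (‖Ql B e a p₀‖ + η) * (‖s‖ * ‖s'‖) := fun s s' => by
      have := ContinuousLinearMap.le_opNorm₂ (Ql B e a (ch2 a a φ p)) s s'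
      rw [mul_assoc] at this
      exact this.trans (mul_le_mul_of_nonneg_right h2 (by positivity))
    rw [e1]
    have e5 := abs_add_le (Ql B e a (ch2 a a φ p) v w + Ql B e a (ch2 a a φ p) w v)
      (Ql B e a (ch2 a a φ p) w w)
    have e6 := abs_add_le (Ql B e a (ch2 a a φ p) v w) (Ql B e a (ch2 a a φ p) w v)
    have e7 := e4 v w
    have e8 := e4 w v
    have e9 := e4 w w
    have hN : 0 ≤ ‖Ql B e a p₀‖ + η := by
      have := norm_nonneg (Ql B e a p₀)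
      linarith
    have e10 : 0 ≤ ‖v‖ * ‖w‖ := by positivity
    have e11 : 0 ≤ ‖w‖ * ‖w‖ := by positivity
    have e12 : (2 * (‖Ql B e a p₀‖ + η)) * (‖v‖ * ‖w‖ + ‖w‖ ^ 2) ≤
        C * (‖v‖ * ‖w‖ + ‖w‖ ^ 2) := by
      apply mul_le_mul_of_nonneg_right hCQ
      positivity
    have e13 : 0 ≤ (‖Ql B e a p₀‖ + η) * (‖w‖ * ‖w‖) := mul_nonneg hN e11
    nlinarith
  · intro z hz
    have h1 := hE p hp hps hpb z hz
    have h2 : 0 ≤ 2 * η * ‖fderiv ℝ (ch2 a a φ) p z‖ ^ 2 := by positivity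
    linarith

/-- the two derivatives -/
lemma deriv_est [T2Space P] (c : CD β R) (h : RF β R Fl) {B : P → F →L[ℝ] F →L[ℝ] ℝ}
    {e : P → F} {a : P} {p₀ : E} {η r κ C : ℝ} (hη : 0 ≤ η) (g : Good β Fl B e a p₀ η r)
    (hr : 0 ≤ r) (hC : 1 ≤ C) (hκ : 0 < κ)
    (hCb : ‖chartForm 𝓘(ℝ, E) β a p₀‖ + η ≤ C) (hCR : ‖RF.Rc Fl a p₀‖ + η ≤ C)
    (hCQ : 2 * (‖Ql B e a p₀‖ + η) ≤ C)
    (h1 : 6 * (2 * η) ≤ κ) (h2 : 2 * C * (2 * η) ≤ 1) (h3 : 4 * C3 C κ * C2 C * (2 * η) ≤ 1)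
    (h4 : KK C κ * (C + (1 + C ^ 2)) * η ≤ 1 / 2)
    {φ : P → P} (hφ : St β φ) (hE : Exp β B e a p₀ r κ φ) {p : E} (hp : p ∈ closedBall p₀ r)
    (hps : φ ((extChartAt 𝓘(ℝ, E) a).symm p) ∈ (extChartAt 𝓘(ℝ, E) a).source)
    (hpb : ch2 a a φ p ∈ closedBall p₀ r) {s : ℝ} (hs : |s| ≤ r) (u : E) :
    ‖u‖ ≤ 2 * KK C κ * ‖fderiv ℝ (ch2 a a φ) p (PE β Fl a p₀ u) -
      fderiv ℝ (RF.H Fl a) (p, s) (PE β Fl a p₀ u, - chartForm 𝓘(ℝ, E) β a p₀ u)‖ := by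
  have hp0 : p₀ ∈ closedBall p₀ r := mem_closedBall_self hr
  have hpt0 := g.tgt hp0
  have hret := ret_of_good c h hη g hr hCb hCR hCQ hφ hE hp hps hpb
  have hest := hret.est hC hκ (by positivity) h1 h2 h3 u
  rw [← PE_apply] at hest
  obtain ⟨L, hL⟩ : ∃ L, L = fderiv ℝ (ch2 a a φ) p := ⟨_, rfl⟩
  obtain ⟨b₀, hb₀⟩ : ∃ b₀, b₀ = chartForm 𝓘(ℝ, E) β a p₀ := ⟨_, rfl⟩
  obtain ⟨R₀, hR₀⟩ : ∃ R₀, R₀ = RF.Rc Fl a p₀ := ⟨_, rfl⟩
  obtain ⟨R', hR'⟩ : ∃ R', R' = RF.Rc Fl a (ch2 a a φ p) := ⟨_, rfl⟩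
  obtain ⟨v, hv⟩ : ∃ v, v = PE β Fl a p₀ u := ⟨_, rfl⟩
  obtain ⟨T, hT⟩ : ∃ T, T = fderiv ℝ (RF.H Fl a) (p, s) := ⟨_, rfl⟩
  obtain ⟨T₀, hT₀⟩ : ∃ T₀, T₀ = fderiv ℝ (RF.H Fl a) (p₀, 0) := ⟨_, rfl⟩
  have hTT := g.H p hp s hs
  have hRR := g.R _ hpb
  have hvu : v = u - b₀ u • R₀ := by rw [hv, hb₀, hR₀]; rfl
  rw [← hL, ← hb₀, ← hR', ← hv] at hest
  rw [← hL, ← hb₀, ← hv, ← hT]
  rw [← hT, ← hT₀] at hTT
  rw [← hR', ← hR₀] at hRR
  have hT0v : ∀ (w : E) (t : ℝ), T₀ (w, t) = w + t • R₀ := by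
    intro w t
    have e1 : ((w, t) : E × ℝ) = ContinuousLinearMap.inl ℝ E ℝ w + t • ((0, 1) : E × ℝ) := by
      ext <;> simp
    rw [e1, map_add, map_smul]
    congr 1
    · have := DFunLike.congr_fun (h.fderiv_H_zero a hpt0) w
      rw [hT₀]
      exact this
    · rw [hR₀, hT₀]; rfl
  have hb0n : ‖b₀‖ ≤ C := by rw [hb₀]; linarith
  have hR0n : ‖R₀‖ ≤ C := by rw [hR₀]; linarith
  have hbu : |b₀ u| ≤ C * ‖u‖ :=
    (b₀.le_opNorm u).trans (mul_le_mul_of_nonneg_right hb0n (norm_nonneg _))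
  have hC0 : 0 ≤ C := by linarith
  have hvn : ‖v‖ ≤ (1 + C ^ 2) * ‖u‖ := by
    rw [hvu]
    refine (norm_sub_le _ _).trans ?_
    rw [norm_smul, Real.norm_eq_abs]
    have : |b₀ u| * ‖R₀‖ ≤ (C * ‖u‖) * C := by gcongr
    nlinarith
  have hpair : ‖((v, - b₀ u) : E × ℝ)‖ ≤ (1 + C ^ 2) * ‖u‖ := by
    rw [Prod.norm_def]
    apply max_le hvn
    simp only [norm_neg, Real.norm_eq_abs]
    refine hbu.trans ?_
    have : C ≤ 1 + C ^ 2 := by nlinarith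
    gcongr
  have hsplit : L v + b₀ u • R' - v = (L v - T (v, - b₀ u)) + (b₀ u • (R' - R₀) +
      (T - T₀) (v, - b₀ u)) := by
    rw [sub_apply, hT0v, smul_sub, neg_smul]
    abel
  have hn1 : ‖b₀ u • (R' - R₀)‖ ≤ C * ‖u‖ * η := by
    rw [norm_smul, Real.norm_eq_abs]
    gcongr
  have hn2 : ‖(T - T₀) (v, - b₀ u)‖ ≤ η * ((1 + C ^ 2) * ‖u‖) := by
    refine ((T - T₀).le_opNorm _).trans ?_
    gcongr
  have hn3 : ‖L v + b₀ u • R' - v‖ ≤ ‖L v - T (v, - b₀ u)‖ +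
      (C + (1 + C ^ 2)) * η * ‖u‖ := by
    rw [hsplit]
    refine (norm_add_le _ _).trans ?_
    have := norm_add_le (b₀ u • (R' - R₀)) ((T - T₀) (v, - b₀ u))
    nlinarith
  have hKK : 0 ≤ KK C κ := by
    unfold KK C2 C3
    positivity
  have hn4 : ‖u‖ ≤ KK C κ * ‖L v - T (v, - b₀ u)‖ +
      (KK C κ * (C + (1 + C ^ 2)) * η) * ‖u‖ := by
    have := mul_le_mul_of_nonneg_left hn3 hKK
    nlinarith
  have hn5 : (KK C κ * (C + (1 + C ^ 2)) * η) * ‖u‖ ≤ 1 / 2 * ‖u‖ := by gcongr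
  linarith

/-- **The equation `φ y = Fl y (-s)` has a solution near a near return.** -/
theorem solve_near [T2Space P] [CompactSpace P] (c : CD β R) (h : RF β R Fl)
    {B : P → F →L[ℝ] F →L[ℝ] ℝ}
    {e : P → F} {a : P} {p₀ : E} {η r κ C : ℝ} (hη : 0 ≤ η) (g : Good β Fl B e a p₀ η r)
    (hr : 0 < r) (hC : 1 ≤ C) (hκ : 0 < κ)
    (hCb : ‖chartForm 𝓘(ℝ, E) β a p₀‖ + η ≤ C) (hCR : ‖RF.Rc Fl a p₀‖ + η ≤ C)
    (hCQ : 2 * (‖Ql B e a p₀‖ + η) ≤ C)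
    (h1 : 6 * (2 * η) ≤ κ) (h2 : 2 * C * (2 * η) ≤ 1) (h3 : 4 * C3 C κ * C2 C * (2 * η) ≤ 1)
    (h4 : KK C κ * (C + (1 + C ^ 2)) * η ≤ 1 / 2)
    {ρ : ℝ} (hρ : 0 < ρ) (hρr : ρ ≤ r)
    (hH : ∀ p ∈ closedBall p₀ ρ, ∀ s, |s| ≤ ρ → RF.H Fl a (p, s) ∈ ball p₀ (r / 2))
    {δ : ℝ} (hδ : 0 < δ) (hδρ : δ * (1 + (1 + C ^ 2) * (16 * KK C κ)) ≤ ρ) (hδr : 2 * δ ≤ r / 2)
    {φ : P → P} (hφ : St β φ) (hE : Exp β B e a p₀ r κ φ) {p₁ : E} (hp₁ : ‖p₁ - p₀‖ ≤ δ)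
    (hps : φ ((extChartAt 𝓘(ℝ, E) a).symm p₁) ∈ (extChartAt 𝓘(ℝ, E) a).source)
    (hpb : ‖ch2 a a φ p₁ - p₀‖ ≤ δ) :
    ∃ p s, p ∈ closedBall p₀ ρ ∧ |s| ≤ ρ ∧
      φ ((extChartAt 𝓘(ℝ, E) a).symm p) ∈ (extChartAt 𝓘(ℝ, E) a).source ∧
      ch2 a a φ p ∈ closedBall p₀ r ∧ ch2 a a φ p = RF.H Fl a (p, s) := by
  have hC0 : 0 ≤ C := by linarith
  have hK0 : 1 ≤ KK C κ := by
    unfold KK C2 C3
    have : 0 ≤ 4 * (C + 1) / κ := by positivity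
    have h5 : 0 ≤ 4 * (1 + 4 * (C + 1) / κ) * (4 * C ^ 2 + 4 * C + 1) * (1 + C) + C ^ 2 := by
      positivity
    linarith
  obtain ⟨K, hK⟩ : ∃ K, K = KK C κ := ⟨_, rfl⟩
  rw [← hK] at hK0 hδρ
  obtain ⟨b₀, hb₀⟩ : ∃ b₀, b₀ = chartForm 𝓘(ℝ, E) β a p₀ := ⟨_, rfl⟩
  obtain ⟨P₀, hP₀⟩ : ∃ P₀, P₀ = PE β Fl a p₀ := ⟨_, rfl⟩
  have hb0n : ‖b₀‖ ≤ C := by rw [hb₀]; linarith
  have hR0n : ‖RF.Rc Fl a p₀‖ ≤ C := by linarith
  have hbn : ∀ w, |b₀ w| ≤ (1 + C ^ 2) * ‖w‖ := fun w => by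
    refine (b₀.le_opNorm w).trans ?_
    have : ‖b₀‖ ≤ 1 + C ^ 2 := by nlinarith
    gcongr
  have hPn : ∀ w, ‖P₀ w‖ ≤ (1 + C ^ 2) * ‖w‖ := by
    intro w
    rw [hP₀, PE_apply, ← hb₀]
    refine (norm_sub_le _ _).trans ?_
    rw [norm_smul, Real.norm_eq_abs]
    have : |b₀ w| * ‖RF.Rc Fl a p₀‖ ≤ (C * ‖w‖) * C := by
      have := (b₀.le_opNorm w).trans (mul_le_mul_of_nonneg_right hb0n (norm_nonneg w))
      have h6 : |b₀ w| ≤ C * ‖w‖ := this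
      gcongr
    nlinarith
  -- the domain
  obtain ⟨ε, hε⟩ : ∃ ε, ε = 16 * K * δ := ⟨_, rfl⟩
  have hε0 : 0 < ε := by rw [hε]; positivity
  have hερ : δ + (1 + C ^ 2) * ε ≤ ρ := by rw [hε]; linarith
  have hsmall : ∀ w, ‖w‖ ≤ ε → p₁ + P₀ w ∈ closedBall p₀ ρ ∧ |(- b₀ w)| ≤ ρ := by
    intro w hw
    have e1 : (1 + C ^ 2) * ‖w‖ ≤ (1 + C ^ 2) * ε := by gcongr
    constructor
    · rw [mem_closedBall, dist_eq_norm]
      have e2 : p₁ + P₀ w - p₀ = (p₁ - p₀) + P₀ w := by abel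
      rw [e2]
      refine (norm_add_le _ _).trans ?_
      have := hPn w
      linarith
    · rw [abs_neg]
      have := hbn w
      linarith
  have hsub : closedBall p₀ ρ ⊆ closedBall p₀ r := closedBall_subset_closedBall hρr
  obtain ⟨Ψ, hΨ⟩ : ∃ Ψ : E → P, ∀ w, Ψ w = φ ((extChartAt 𝓘(ℝ, E) a).symm (p₁ + P₀ w)) :=
    ⟨_, fun _ => rfl⟩
  have hΨc : ContinuousOn Ψ (closedBall 0 ε) := by
    intro w hw
    rw [mem_closedBall_zero_iff] at hw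
    have e1 := g.tgt (hsub (hsmall w hw).1)
    have e2 : ContinuousAt (fun w => p₁ + P₀ w) w := by fun_prop
    have e3 : ContinuousAt (fun w => (extChartAt 𝓘(ℝ, E) a).symm (p₁ + P₀ w)) w :=
      ContinuousAt.comp (g := (extChartAt 𝓘(ℝ, E) a).symm)
        ((continuousOn_extChartAt_symm a).continuousAt
          ((isOpen_extChartAt_target a).mem_nhds e1)) e2
    have e4 : ContinuousAt Ψ w := by
      have : Ψ = fun w => φ ((extChartAt 𝓘(ℝ, E) a).symm (p₁ + P₀ w)) := funext hΨ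
      rw [this]
      exact hφ.smooth.continuous.continuousAt.comp e3
    exact e4.continuousWithinAt
  obtain ⟨N, hN⟩ : ∃ N, N = (extChartAt 𝓘(ℝ, E) a).symm '' closedBall p₀ r := ⟨_, rfl⟩
  have : ProperSpace E := FiniteDimensional.proper ℝ E
  have hNc : IsClosed N := by
    rw [hN]
    exact ((isCompact_closedBall p₀ r).image_of_continuousOn
      ((continuousOn_extChartAt_symm a).mono g.tgt)).isClosed
  have hNmem : ∀ y, y ∈ N ↔ y ∈ (extChartAt 𝓘(ℝ, E) a).source ∧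
      extChartAt 𝓘(ℝ, E) a y ∈ closedBall p₀ r := by
    intro y
    rw [hN]
    constructor
    · rintro ⟨q, hq, rfl⟩
      refine ⟨(extChartAt 𝓘(ℝ, E) a).map_target (g.tgt hq), ?_⟩
      rw [(extChartAt 𝓘(ℝ, E) a).right_inv (g.tgt hq)]
      exact hq
    · rintro ⟨e1, e2⟩
      exact ⟨_, e2, (extChartAt 𝓘(ℝ, E) a).left_inv e1⟩
  obtain ⟨S, hS⟩ : ∃ S, S = closedBall 0 ε ∩ Ψ ⁻¹' N := ⟨_, rfl⟩
  have hScl : IsClosed S := by
    rw [hS]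
    exact hΨc.preimage_isClosed_of_isClosed isClosed_closedBall hNc
  have hSc : IsCompact S := by
    have : S ⊆ closedBall 0 ε := by rw [hS]; exact inter_subset_left
    exact (isCompact_closedBall (0:E) ε).of_isClosed_subset hScl this
  have hSm : ∀ w ∈ S, ‖w‖ ≤ ε ∧ Ψ w ∈ (extChartAt 𝓘(ℝ, E) a).source ∧
      extChartAt 𝓘(ℝ, E) a (Ψ w) ∈ closedBall p₀ r := by
    intro w hw
    rw [hS] at hw
    exact ⟨mem_closedBall_zero_iff.1 hw.1, (hNmem _).1 hw.2⟩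
  -- the map
  obtain ⟨G, hG⟩ : ∃ G : E → E, G = fun w => ch2 a a φ (p₁ + P₀ w) -
      RF.H Fl a (p₁ + P₀ w, - b₀ w) := ⟨_, rfl⟩
  have hGw : ∀ w, G w = ch2 a a φ (p₁ + P₀ w) - RF.H Fl a (p₁ + P₀ w, - b₀ w) := fun w => by
    rw [hG]
  have hchΨ : ∀ w, ch2 a a φ (p₁ + P₀ w) = extChartAt 𝓘(ℝ, E) a (Ψ w) := fun w => by
    rw [hΨ]; rfl
  have hsrcΨ : ∀ w, φ ((extChartAt 𝓘(ℝ, E) a).symm (p₁ + P₀ w)) = Ψ w := fun w => (hΨ w).symm
  -- derivative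
  have hGd : ∀ w ∈ S, HasFDerivAt G ((fderiv ℝ (ch2 a a φ) (p₁ + P₀ w)).comp P₀ -
      (fderiv ℝ (RF.H Fl a) (p₁ + P₀ w, - b₀ w)).comp (P₀.prod (- b₀))) w := by
    intro w hw
    obtain ⟨e1, e2, e3⟩ := hSm w hw
    obtain ⟨e4, e5⟩ := hsmall w e1
    have e6 := g.tgt (hsub e4)
    have e7 : HasFDerivAt (fun w => p₁ + P₀ w) P₀ w := P₀.hasFDerivAt.const_add p₁
    have e8 : HasFDerivAt (ch2 a a φ) (fderiv ℝ (ch2 a a φ) (p₁ + P₀ w)) (p₁ + P₀ w) :=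
      ((ch2_smooth a a hφ.smooth e6 (by rw [hsrcΨ]; exact e2)).differentiableAt
        (by simp)).hasFDerivAt
    have e9 : HasFDerivAt (RF.H Fl a) (fderiv ℝ (RF.H Fl a) (p₁ + P₀ w, - b₀ w))
        (p₁ + P₀ w, - b₀ w) :=
      ((h.smooth_H a (q := (p₁ + P₀ w, - b₀ w)) e6
        (g.src _ (hsub e4) _ (e5.trans hρr))).differentiableAt (by simp)).hasFDerivAt
    have e10 : HasFDerivAt (fun w => (p₁ + P₀ w, - b₀ w)) (P₀.prod (- b₀)) w :=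
      e7.prodMk b₀.hasFDerivAt.neg
    have e11 := (e8.comp w e7).sub
      (HasFDerivAt.comp w (g := RF.H Fl a) (f := fun w => (p₁ + P₀ w, - b₀ w)) e9 e10)
    rw [hG]
    exact e11
  have h0S : (0:E) ∈ S := by
    rw [hS]
    refine ⟨mem_closedBall_zero_iff.2 (by rw [norm_zero]; exact hε0.le), ?_⟩
    rw [mem_preimage, hNmem, hΨ, map_zero, add_zero]
    refine ⟨hps, ?_⟩
    rw [mem_closedBall, dist_eq_norm]
    have e1 : ‖extChartAt 𝓘(ℝ, E) a (φ ((extChartAt 𝓘(ℝ, E) a).symm p₁)) - p₀‖ ≤ δ := hpb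
    linarith
  have hp₁b : p₁ ∈ closedBall p₀ ρ := by
    have := (hsmall 0 (by rw [norm_zero]; exact hε0.le)).1
    rwa [map_zero, add_zero] at this
  have hG0 : ‖G 0‖ ≤ 2 * δ := by
    rw [hGw, map_zero, map_zero, add_zero, neg_zero, h.H_zero a (g.tgt (hsub hp₁b))]
    have e1 : ch2 a a φ p₁ - p₁ = (ch2 a a φ p₁ - p₀) - (p₁ - p₀) := by abel
    rw [e1]
    refine (norm_sub_le _ _).trans ?_
    linarith
  have hκK : 1 / (4 * K) * (2 * K) < 1 := by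
    have : 1 / (4 * K) * (2 * K) = 1 / 2 := by field_simp; norm_num
    rw [this]; norm_num
  obtain ⟨w, hwS, hw0, hwn⟩ := solve hSc h0S (F := G)
    (fun w hw => (hGd w hw).continuousAt.continuousWithinAt)
    (κ := 1 / (4 * K)) (K := 2 * K) (by positivity) (by positivity) hκK (by
      intro w hw hwle
      obtain ⟨e1, e2, e3⟩ := hSm w hw
      obtain ⟨e4, e5⟩ := hsmall w e1
      have e6 : ‖G w‖ ≤ 2 * δ := by
        have : 0 ≤ 1 / (4 * K) * ‖w‖ := by positivity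
        linarith
      have e7 : 1 / (4 * K) * ‖w‖ ≤ 2 * δ := by
        have : 0 ≤ ‖G w‖ := norm_nonneg _
        linarith
      have e8 : ‖w‖ ≤ 8 * K * δ := by
        have e9 : ‖w‖ = (4 * K) * (1 / (4 * K) * ‖w‖) := by field_simp
        rw [e9]
        nlinarith
      have e8' : ‖w‖ < ε := by
        rw [hε]
        have : 0 < K * δ := by positivity
        linarith
      refine ⟨?_, _, hGd w hw, ?_⟩
      · -- `S` is a neighbourhood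
        have e9 : Ψ w ∈ (extChartAt 𝓘(ℝ, E) a).source ∩
            (extChartAt 𝓘(ℝ, E) a) ⁻¹' ball p₀ r := by
          refine ⟨e2, ?_⟩
          rw [mem_preimage, ← hchΨ, mem_ball, dist_eq_norm]
          have e10 := hH _ e4 _ e5
          rw [mem_ball, dist_eq_norm] at e10
          have e11 : ch2 a a φ (p₁ + P₀ w) - p₀ = G w +
              (RF.H Fl a (p₁ + P₀ w, - b₀ w) - p₀) := by rw [hGw]; abel
          rw [e11]
          refine (norm_add_le _ _).trans_lt ?_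
          linarith
        have e10 : (extChartAt 𝓘(ℝ, E) a).source ∩
            (extChartAt 𝓘(ℝ, E) a) ⁻¹' ball p₀ r ∈ 𝓝 (Ψ w) :=
          ((continuousOn_extChartAt a).isOpen_inter_preimage (isOpen_extChartAt_source a)
            isOpen_ball).mem_nhds e9
        have e11 : closedBall (0:E) ε ∈ 𝓝 w :=
          closedBall_mem_nhds_of_mem (mem_ball_zero_iff.2 e8')
        have e12 : ContinuousAt Ψ w := hΨc.continuousAt e11
        rw [hS]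
        filter_upwards [e11, e12 e10] with w' h5 h6
        exact ⟨h5, (hNmem _).2 ⟨h6.1, ball_subset_closedBall h6.2⟩⟩
      · -- right inverse
        obtain ⟨L, hL⟩ : ∃ L : E →L[ℝ] E, L = (fderiv ℝ (ch2 a a φ) (p₁ + P₀ w)).comp P₀ -
          (fderiv ℝ (RF.H Fl a) (p₁ + P₀ w, - b₀ w)).comp (P₀.prod (- b₀)) := ⟨_, rfl⟩
        rw [← hL]
        have e9 : ∀ u, ‖u‖ ≤ 2 * K * ‖L u‖ := by
          intro u
          have e10 := deriv_est c h hη g hr.le hC hκ hCb hCR hCQ h1 h2 h3 h4 hφ hE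
            (hsub e4) (by rw [hsrcΨ]; exact e2) (by rw [hchΨ]; exact e3) (e5.trans hρr) u
          rw [← hK, ← hb₀, ← hP₀] at e10
          rw [hL]
          exact e10
        have hinj : Function.Injective (L : E →ₗ[ℝ] E) := by
          rw [injective_iff_map_eq_zero]
          intro u hu
          have e10 := e9 u
          have e11 : L u = 0 := hu
          rw [e11, norm_zero, mul_zero] at e10
          exact norm_le_zero_iff.1 e10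
        obtain ⟨u, hu⟩ := LinearMap.injective_iff_surjective.1 hinj (- G w)
        have hu' : L u = - G w := hu
        refine ⟨u, hu', ?_⟩
        have e10 := e9 u
        rw [hu', norm_neg] at e10
        exact e10)
  obtain ⟨e1, e2, e3⟩ := hSm w hwS
  obtain ⟨e4, e5⟩ := hsmall w e1
  refine ⟨p₁ + P₀ w, - b₀ w, e4, e5, ?_, ?_, ?_⟩
  · rw [hsrcΨ]; exact e2
  · rw [hchΨ]; exact e3
  · have := hw0
    rw [hGw, sub_eq_zero] at this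
    exact this

end Pool.Agent.K4H64.We
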