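import Mathlib
import Pool.Agent.K4H64.We.Close

/-! Closing lemma for strict contact maps near a point, modulo the Reeb flow: closed orbits. -/

open scoped Topology ContDiff Manifold
open Set Metric Bundle Filter Pool.Agent.Helper186 Pool.Agent.H826R2.Wein Pool.Agent.W671.WU
open Pool.Agent.R774.Root Pool.Agent.R774.Hyp

noncomputable section

namespace Pool.Agent.K4H64.We

set_option linter.unusedSectionVars false

universe u

variable {E : Type u} [NormedAddCommGroup E] [NormedSpace ℝ E] [FiniteDimensional ℝ E]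
  {P : Type*} [TopologicalSpace P] [ChartedSpace E P] [IsManifold 𝓘(ℝ, E) ∞ P]
  {F : Type*} [NormedAddCommGroup F] [NormedSpace ℝ F]
  {β : (x : P) → TangentSpace 𝓘(ℝ, E) x →L[ℝ] ℝ}
  {R : (x : P) → TangentSpace 𝓘(ℝ, E) x} {Fl : P → ℝ → P}

/-- equality of derivatives in charts -/
lemma chart_deriv_eq {a : P} {φ₁ φ₂ : P → P} (h1 : ContMDiff 𝓘(ℝ, E) 𝓘(ℝ, E) ∞ φ₁)
    (h2 : ContMDiff 𝓘(ℝ, E) 𝓘(ℝ, E) ∞ φ₂) {p : E} (hp : p ∈ (extChartAt 𝓘(ℝ, E) a).target)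
    (hs1 : φ₁ ((extChartAt 𝓘(ℝ, E) a).symm p) ∈ (extChartAt 𝓘(ℝ, E) a).source)
    (heq : φ₁ ((extChartAt 𝓘(ℝ, E) a).symm p) = φ₂ ((extChartAt 𝓘(ℝ, E) a).symm p)) {z : E}
    (hz : dm E φ₁ ((extChartAt 𝓘(ℝ, E) a).symm p) (ds a p z) =
      dm E φ₂ ((extChartAt 𝓘(ℝ, E) a).symm p) (ds a p z)) :
    fderiv ℝ (ch2 a a φ₁) p z = fderiv ℝ (ch2 a a φ₂) p z := by
  have hq : ch2 a a φ₁ p = ch2 a a φ₂ p := by
    show extChartAt 𝓘(ℝ, E) a (φ₁ ((extChartAt 𝓘(ℝ, E) a).symm p)) =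
      extChartAt 𝓘(ℝ, E) a (φ₂ ((extChartAt 𝓘(ℝ, E) a).symm p))
    rw [heq]
  have hs2 : φ₂ ((extChartAt 𝓘(ℝ, E) a).symm p) ∈ (extChartAt 𝓘(ℝ, E) a).source := by
    rw [← heq]; exact hs1
  have hct : ch2 a a φ₁ p ∈ (extChartAt 𝓘(ℝ, E) a).target := (extChartAt 𝓘(ℝ, E) a).map_source hs1
  have e1 := tangent_ch2 a a h1 hp hs1 z
  have e2 := tangent_ch2 a a h2 hp hs2 z
  have hE : ∀ {v w : TangentBundle 𝓘(ℝ, E) P} (_ : v = w), (v.2 : E) = (w.2 : E) := by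
    rintro _ _ rfl; rfl
  have e3 : (ds a (ch2 a a φ₁ p) (fderiv ℝ (ch2 a a φ₁) p z) : E) =
      dm E φ₁ ((extChartAt 𝓘(ℝ, E) a).symm p) (ds a p z) := hE e1
  have e4 : (ds a (ch2 a a φ₂ p) (fderiv ℝ (ch2 a a φ₂) p z) : E) =
      dm E φ₂ ((extChartAt 𝓘(ℝ, E) a).symm p) (ds a p z) := hE e2
  have e5 : ∀ q q' : E, q = q' → ∀ w : E, (ds a q w : E) = (ds a q' w : E) := by
    rintro q _ rfl w; rfl
  have e6 : (ds a (ch2 a a φ₁ p) (fderiv ℝ (ch2 a a φ₁) p z) : E) =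
      (ds a (ch2 a a φ₁ p) (fderiv ℝ (ch2 a a φ₂) p z) : E) := by
    rw [e3, hz, ← e4]
    exact e5 _ _ hq.symm _
  have e7 : (ds a (ch2 a a φ₁ p) (fderiv ℝ (ch2 a a φ₁) p z - fderiv ℝ (ch2 a a φ₂) p z) : E) =
      0 := by
    have e8 : (ds a (ch2 a a φ₁ p) (fderiv ℝ (ch2 a a φ₁) p z -
        fderiv ℝ (ch2 a a φ₂) p z) : E) =
        (ds a (ch2 a a φ₁ p) (fderiv ℝ (ch2 a a φ₁) p z) : E) -
        (ds a (ch2 a a φ₁ p) (fderiv ℝ (ch2 a a φ₂) p z) : E) :=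
      map_sub (mfderiv 𝓘(ℝ, E) 𝓘(ℝ, E) (extChartAt 𝓘(ℝ, E) a).symm (ch2 a a φ₁ p)) _ _
    rw [e8, e6, sub_self]
  exact sub_eq_zero.1 (ds_inj hct e7)

theorem closed_near [T2Space P] [CompactSpace P] (c : CD β R) (h : RF β R Fl)
    {B : P → F →L[ℝ] F →L[ℝ] ℝ} {e : P → F}
    (he : ContMDiff 𝓘(ℝ, E) 𝓘(ℝ, F) ∞ e) (a : P) {p₀ : E}
    (hp : p₀ ∈ (extChartAt 𝓘(ℝ, E) a).target)
    (hB : ContinuousAt B ((extChartAt 𝓘(ℝ, E) a).symm p₀)) {κ r₀ : ℝ} (hκ : 0 < κ)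
    (hr₀ : 0 < r₀) {U : Set P} (hU : U ∈ 𝓝 ((extChartAt 𝓘(ℝ, E) a).symm p₀)) :
    ∃ δ > 0, ∀ φ : P → P, St β φ → Exp β B e a p₀ r₀ κ φ → ∀ p₁ : E, ‖p₁ - p₀‖ ≤ δ →
      φ ((extChartAt 𝓘(ℝ, E) a).symm p₁) ∈ (extChartAt 𝓘(ℝ, E) a).source →
      ‖ch2 a a φ p₁ - p₀‖ ≤ δ → ∃ y ∈ U, ∃ T, 0 < T ∧ Fl y T = y := by
  -- constants
  obtain ⟨C, hC⟩ : ∃ C, C = ‖chartForm 𝓘(ℝ, E) β a p₀‖ + ‖RF.Rc Fl a p₀‖ +
    2 * ‖Ql B e a p₀‖ + 3 := ⟨_, rfl⟩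
  have n1 : 0 ≤ ‖chartForm 𝓘(ℝ, E) β a p₀‖ := norm_nonneg _
  have n2 : 0 ≤ ‖RF.Rc Fl a p₀‖ := norm_nonneg _
  have n3 : 0 ≤ ‖Ql B e a p₀‖ := ContinuousLinearMap.opNorm_nonneg _
  have hC1 : 1 ≤ C := by linarith
  have hC0 : 0 < C := by linarith
  have hC2 : 0 < C2 C := by unfold C2; positivity
  have hC3 : 0 < C3 C κ := by unfold C3; positivity
  have hK1 : 0 < KK C κ := by unfold KK; positivity
  obtain ⟨D, hD⟩ : ∃ D, D = 1 + 12 / κ + 4 * C + 8 * C3 C κ * C2 C +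
    2 * (KK C κ * (C + (1 + C ^ 2))) + (4 * C + 4) / κ := ⟨_, rfl⟩
  have hD1 : 0 < 12 / κ := by positivity
  have hD2 : 0 < 8 * C3 C κ * C2 C := by positivity
  have hD3 : 0 < 2 * (KK C κ * (C + (1 + C ^ 2))) := by positivity
  have hD4 : 0 < (4 * C + 4) / κ := by positivity
  have hD0 : 0 < D := by linarith
  obtain ⟨η, hη⟩ : ∃ η, η = 1 / D := ⟨_, rfl⟩
  have hη0 : 0 < η := by rw [hη]; positivity
  have hηD : D * η = 1 := by rw [hη]; field_simp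
  have hsmall : ∀ t, 0 ≤ t → t ≤ D → t * η ≤ 1 := fun t ht htD => by
    rw [← hηD]; gcongr
  have s1 : η ≤ 1 := by
    have := hsmall 1 zero_le_one (by linarith)
    linarith
  have s2 : 6 * (2 * η) ≤ κ := by
    have := hsmall (12 / κ) hD1.le (by linarith)
    rw [div_mul_eq_mul_div, div_le_one hκ] at this
    linarith
  have s3 : 2 * C * (2 * η) ≤ 1 := by
    have := hsmall (4 * C) (by positivity) (by linarith)
    linarith
  have s4 : 4 * C3 C κ * C2 C * (2 * η) ≤ 1 := by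
    have := hsmall (8 * C3 C κ * C2 C) (by positivity) (by linarith)
    linarith
  have s5 : KK C κ * (C + (1 + C ^ 2)) * η ≤ 1 / 2 := by
    have := hsmall (2 * (KK C κ * (C + (1 + C ^ 2)))) (by positivity) (by linarith)
    linarith
  have s6 : (2 * C + 2) * η < κ := by
    have := hsmall ((4 * C + 4) / κ) (by positivity) (by linarith)
    rw [div_mul_eq_mul_div, div_le_one hκ] at this
    nlinarith
  obtain ⟨r₁, hr₁, hgood⟩ := exists_good c h (B := B) he a hp hB hη0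
  obtain ⟨r, hr⟩ : ∃ r, r = min r₀ r₁ := ⟨_, rfl⟩
  have hr0 : 0 < r := by rw [hr]; exact lt_min hr₀ hr₁
  have g := hgood r (by rw [hr]; exact min_le_right _ _)
  have hrr : r ≤ r₀ := by rw [hr]; exact min_le_left _ _
  -- the second radius
  have hp0 : p₀ ∈ closedBall p₀ r := mem_closedBall_self hr0.le
  have hHc : ContinuousAt (RF.H Fl a) (p₀, 0) :=
    (h.smooth_H a (q := (p₀, 0)) hp (g.src _ hp0 0 (by rw [abs_zero]; exact hr0.le))).continuousAt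
  have hH0 : RF.H Fl a (p₀, 0) = p₀ := h.H_zero a hp
  have e1 : ∀ᶠ q : E × ℝ in 𝓝 (p₀, 0), RF.H Fl a q ∈ ball p₀ (r / 2) := by
    apply hHc
    rw [hH0]
    exact ball_mem_nhds _ (by positivity)
  have e2 : ∀ᶠ q : E × ℝ in 𝓝 (p₀, 0), (extChartAt 𝓘(ℝ, E) a).symm q.1 ∈ U := by
    have h1 : ContinuousAt (fun q : E × ℝ => (extChartAt 𝓘(ℝ, E) a).symm q.1) (p₀, 0) :=
      ContinuousAt.comp (x := ((p₀, 0) : E × ℝ)) (f := Prod.fst)
        (g := (extChartAt 𝓘(ℝ, E) a).symm) ((continuousOn_extChartAt_symm a).continuousAt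
          ((isOpen_extChartAt_target a).mem_nhds hp)) continuousAt_fst
    exact h1 hU
  obtain ⟨ρ₁, hρ₁, hball⟩ := Metric.eventually_nhds_iff.1 (e1.and e2)
  obtain ⟨ρ, hρ⟩ : ∃ ρ, ρ = min r (ρ₁ / 2) := ⟨_, rfl⟩
  have hρ0 : 0 < ρ := by rw [hρ]; exact lt_min hr0 (by positivity)
  have hρr : ρ ≤ r := by rw [hρ]; exact min_le_left _ _
  have hρ1 : ρ ≤ ρ₁ / 2 := by rw [hρ]; exact min_le_right _ _
  have hH : ∀ p ∈ closedBall p₀ ρ, ∀ s, |s| ≤ ρ → RF.H Fl a (p, s) ∈ ball p₀ (r / 2) := by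
    intro p hp s hs
    refine (hball (y := (p, s)) ?_).1
    rw [mem_closedBall] at hp
    rw [Prod.dist_eq]
    apply max_lt
    · simp only; linarith
    · simp only [Real.dist_eq, sub_zero]; linarith
  have hUρ : ∀ p ∈ closedBall p₀ ρ, (extChartAt 𝓘(ℝ, E) a).symm p ∈ U := by
    intro p hp
    refine (hball (y := (p, 0)) ?_).2
    rw [mem_closedBall] at hp
    rw [Prod.dist_eq]
    apply max_lt
    · simp only; linarith
    · simp only [dist_self]; linarith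
  obtain ⟨δ, hδ⟩ : ∃ δ, δ = min (ρ / (1 + (1 + C ^ 2) * (16 * KK C κ))) (r / 4) := ⟨_, rfl⟩
  have hδ0 : 0 < δ := by rw [hδ]; exact lt_min (by positivity) (by positivity)
  have hδ1 : δ * (1 + (1 + C ^ 2) * (16 * KK C κ)) ≤ ρ := by
    rw [← le_div_iff₀ (by positivity), hδ]
    exact min_le_left _ _
  have hδ2 : 2 * δ ≤ r / 2 := by
    have : δ ≤ r / 4 := by rw [hδ]; exact min_le_right _ _
    linarith
  refine ⟨δ, hδ0, fun φ hφ hE p₁ hp₁ hps hpb => ?_⟩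
  have hE' : Exp β B e a p₀ r κ φ := fun p hp h1 h2 =>
    hE p (closedBall_subset_closedBall hrr hp) h1 (closedBall_subset_closedBall hrr h2)
  obtain ⟨p, s, hpρ, hsρ, hφs, hφb, heq⟩ := solve_near c h hη0.le g hr0 hC1 hκ (by linarith)
    (by linarith) (by linarith) s2 s3 s4 s5 hρ0 hρr hH hδ0 hδ1 hδ2 hφ hE' hp₁ hps hpb
  have hpr : p ∈ closedBall p₀ r := closedBall_subset_closedBall hρr hpρ
  have hsr : |s| ≤ r := hsρ.trans hρr
  have hpt := g.tgt hpr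
  have hFs := g.src p hpr s hsr
  obtain ⟨y, hy⟩ : ∃ y, y = (extChartAt 𝓘(ℝ, E) a).symm p := ⟨_, rfl⟩
  have hφy : φ ((extChartAt 𝓘(ℝ, E) a).symm p) = Fl ((extChartAt 𝓘(ℝ, E) a).symm p) s :=
    (extChartAt 𝓘(ℝ, E) a).injOn hφs hFs heq
  refine ⟨(extChartAt 𝓘(ℝ, E) a).symm p, hUρ p hpρ, ?_⟩
  have hψ : St β (fun x => Fl (φ x) (-s)) := hφ.comp (St.flow h (-s))
  have hψy : Fl (φ ((extChartAt 𝓘(ℝ, E) a).symm p)) (-s) = (extChartAt 𝓘(ℝ, E) a).symm p := by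
    rw [hφy, ← h.add, add_neg_cancel, h.zero]
  refine closed_of_fixed c h hψ hψy ?_
  intro v hv hfix
  -- the derivatives of `φ` and of the flow agree on `v`
  have hback : (fun x => Fl ((fun x => Fl (φ x) (-s)) x) s) = φ := by
    ext1 x
    show Fl (Fl (φ x) (-s)) s = φ x
    rw [← h.add, neg_add_cancel, h.zero]
  have hd : dm E φ ((extChartAt 𝓘(ℝ, E) a).symm p) v =
      dm E (fun x => Fl x s) ((extChartAt 𝓘(ℝ, E) a).symm p) v := by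
    have h1 := dm_comp hψ.smooth (h.smooth_t s) ((extChartAt 𝓘(ℝ, E) a).symm p) v
    rw [hback] at h1
    rw [h1, hψy, hfix]
  obtain ⟨z, hz⟩ := ds_surj hpt v
  subst hz
  have hz2 : fderiv ℝ (ch2 a a φ) p z = fderiv ℝ (ch2 a a (fun x => Fl x s)) p z :=
    chart_deriv_eq hφ.smooth (h.smooth_t s) hpt hφs hφy hd
  have hz3 : fderiv ℝ (ch2 a a (fun x => Fl x s)) p z = fderiv ℝ (RF.H Fl a) (p, s) (z, 0) := by
    have := h.fderiv_ch_eq a hpt hFs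
    exact DFunLike.congr_fun this z
  have hzb : chartForm 𝓘(ℝ, E) β a p z = 0 := hv
  have hexp := hE' p hpr hφs hφb z hzb
  rw [hz2, hz3] at hexp
  obtain ⟨w, hw⟩ : ∃ w, w = fderiv ℝ (RF.H Fl a) (p, s) (z, 0) := ⟨_, rfl⟩
  rw [← hw] at hexp
  have hwz : ‖w - z‖ ≤ η * ‖z‖ := by
    have h1 : fderiv ℝ (RF.H Fl a) (p₀, 0) (z, 0) = z :=
      DFunLike.congr_fun (h.fderiv_H_zero a hp) z
    have h2 : w - z = (fderiv ℝ (RF.H Fl a) (p, s) - fderiv ℝ (RF.H Fl a) (p₀, 0)) (z, 0) := by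
      rw [sub_apply, h1, hw]
    rw [h2]
    refine (ContinuousLinearMap.le_opNorm _ _).trans ?_
    have h3 : ‖((z, 0) : E × ℝ)‖ = ‖z‖ := by simp [Prod.norm_def]
    rw [h3]
    exact mul_le_mul_of_nonneg_right (g.H p hpr s hsr) (norm_nonneg _)
  have hret := ret_of_good c h hη0.le g hr0.le (C := C) (by linarith) (by linarith) (by linarith)
    hφ hE' hpr hφs hφb
  have h5 := hret.ql z (w - z)
  have h6 := hret.qq z
  simp only [add_sub_cancel] at h5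
  have h7 : C * (‖z‖ * ‖w - z‖ + ‖w - z‖ ^ 2) ≤ C * (‖z‖ * (η * ‖z‖) + (η * ‖z‖) ^ 2) := by
    gcongr
  have h8 := (abs_le.1 h5).2
  have h9 := (abs_le.1 h6).2
  have h10 : κ * ‖z‖ ^ 2 ≤ (2 * C + 2) * η * ‖z‖ ^ 2 := by
    have h11 : C * (‖z‖ * (η * ‖z‖) + (η * ‖z‖) ^ 2) ≤ 2 * C * η * ‖z‖ ^ 2 := by
      have h12 : η ^ 2 ≤ η := by nlinarith
      have h13 : C * (η ^ 2 * ‖z‖ ^ 2) ≤ C * (η * ‖z‖ ^ 2) := by gcongr
      nlinarith
    linarith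
  have h11 : z = 0 := by
    by_contra hz0
    have h12 : 0 < ‖z‖ ^ 2 := by
      have := norm_pos_iff.2 hz0
      positivity
    nlinarith
  rw [h11]
  exact map_zero (mfderiv 𝓘(ℝ, E) 𝓘(ℝ, E) (extChartAt 𝓘(ℝ, E) a).symm p)

end Pool.Agent.K4H64.We
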