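import Mathlib
import Pool.Agent.K4H64.We.Vol

/-! Recurrence for injective strict contact maps: every open set returns, because of the contact
volume. -/

open scoped Topology ContDiff Manifold
open Set Metric Bundle Filter Pool.Agent.Helper186 Pool.Agent.H826R2.Wein Pool.Agent.W671.WU
open Pool.Agent.R774.Root Pool.Agent.R774.Hyp
open MeasureTheory Module

noncomputable section

namespace Pool.Agent.K4H64.We

set_option linter.unusedSectionVars false

universe u

variable {E : Type u} [NormedAddCommGroup E] [NormedSpace ℝ E] [FiniteDimensional ℝ E]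
  {P : Type*} [TopologicalSpace P] [ChartedSpace E P] [IsManifold 𝓘(ℝ, E) ∞ P]
  {β : (x : P) → TangentSpace 𝓘(ℝ, E) x →L[ℝ] ℝ}
  {R : (x : P) → TangentSpace 𝓘(ℝ, E) x} {Fl : P → ℝ → P}

lemma St.iterate {g : P → P} (hg : St β g) (n : ℕ) : St β (g^[n]) := by
  induction n with
  | zero => exact st_id
  | succ n ih =>
    have h1 := ih.comp hg
    have h2 : (fun x => g (g^[n] x)) = g^[n + 1] := by
      funext x
      rw [Function.iterate_succ_apply']
    rwa [h2] at h1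

/-- change of variables -/
lemma lint_ch2 [MeasurableSpace E] [BorelSpace E] {ι : Type*} [Fintype ι] [DecidableEq ι]
    (bs : Basis ι ℝ E) (c : CD β R) {φ : P → P} (hφ : St β φ)
    (hinj : Function.Injective φ) (a b : P) {D : Set E} (hD : MeasurableSet D)
    (hDt : D ⊆ (extChartAt 𝓘(ℝ, E) a).target)
    (hDs : ∀ p ∈ D, φ ((extChartAt 𝓘(ℝ, E) a).symm p) ∈ (extChartAt 𝓘(ℝ, E) b).source) :
    ∫⁻ p in ch2 a b φ '' D, ENNReal.ofReal (dens β bs b p) ∂bs.addHaar =
      ∫⁻ p in D, ENNReal.ofReal (dens β bs a p) ∂bs.addHaar := by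
  rw [lintegral_image_eq_lintegral_abs_det_fderiv_mul bs.addHaar hD
    (f' := fun p => fderiv ℝ (ch2 a b φ) p)]
  · refine setLIntegral_congr_fun hD fun p hp => ?_
    rw [← ENNReal.ofReal_mul (abs_nonneg _), ← dens_ch2 bs c hφ a b (hDt hp) (hDs p hp)]
  · intro p hp
    exact (((ch2_smooth a b hφ.smooth (hDt hp) (hDs p hp)).differentiableAt
      (by simp)).hasFDerivAt).hasFDerivWithinAt
  · intro p hp q hq hpq
    have h1 := (extChartAt 𝓘(ℝ, E) b).injOn (hDs p hp) (hDs q hq) hpq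
    have h2 := hinj h1
    exact (extChartAt 𝓘(ℝ, E) a).symm.injOn (hDt hp) (hDt hq) h2

/-- compact sets have finite volume -/
lemma lint_lt_top [MeasurableSpace E] [BorelSpace E] {ι : Type*} [Fintype ι] [DecidableEq ι]
    (bs : Basis ι ℝ E) (c : CD β R) (a : P) {D : Set E} (hD : IsCompact D)
    (hDt : D ⊆ (extChartAt 𝓘(ℝ, E) a).target) :
    ∫⁻ p in D, ENNReal.ofReal (dens β bs a p) ∂bs.addHaar < ⊤ := by
  have hc : ContinuousOn (dens β bs a) D := fun p hp =>
    (contAt_dens bs c a (hDt hp)).continuousWithinAt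
  obtain ⟨C, hC⟩ := (hD.image_of_continuousOn hc).bddAbove
  have h1 : ∫⁻ p in D, ENNReal.ofReal (dens β bs a p) ∂bs.addHaar ≤
      ∫⁻ _ in D, ENNReal.ofReal C ∂bs.addHaar := by
    refine setLIntegral_mono' hD.measurableSet fun p hp => ?_
    exact ENNReal.ofReal_le_ofReal (hC ⟨p, hp, rfl⟩)
  refine h1.trans_lt ?_
  rw [setLIntegral_const]
  exact ENNReal.mul_lt_top ENNReal.ofReal_lt_top hD.measure_lt_top

/-- neighbourhoods have positive volume -/
lemma lint_pos [MeasurableSpace E] [BorelSpace E] {ι : Type*} [Fintype ι] [DecidableEq ι]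
    (bs : Basis ι ℝ E) (c : CD β R) (a : P) {p₀ : E} (hp : p₀ ∈ (extChartAt 𝓘(ℝ, E) a).target)
    {D : Set E} (hD : D ∈ 𝓝 p₀) :
    0 < ∫⁻ p in D, ENNReal.ofReal (dens β bs a p) ∂bs.addHaar := by
  have hpos := dens_pos bs c a hp
  have h1 : ∀ᶠ p in 𝓝 p₀, dens β bs a p₀ / 2 < dens β bs a p :=
    (contAt_dens bs c a hp).eventually (lt_mem_nhds (by linarith))
  obtain ⟨r, hr, hball⟩ := Metric.mem_nhds_iff.1 (Filter.inter_mem hD h1)
  have h2 : ∫⁻ _ in ball p₀ r, ENNReal.ofReal (dens β bs a p₀ / 2) ∂bs.addHaar ≤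
      ∫⁻ p in ball p₀ r, ENNReal.ofReal (dens β bs a p) ∂bs.addHaar := by
    refine setLIntegral_mono' measurableSet_ball fun p hp => ?_
    exact ENNReal.ofReal_le_ofReal (hball hp).2.le
  have h3 : ∫⁻ p in ball p₀ r, ENNReal.ofReal (dens β bs a p) ∂bs.addHaar ≤
      ∫⁻ p in D, ENNReal.ofReal (dens β bs a p) ∂bs.addHaar :=
    lintegral_mono_set fun p hp => (hball hp).1
  refine lt_of_lt_of_le ?_ (h2.trans h3)
  rw [setLIntegral_const]
  exact ENNReal.mul_pos (by simpa using hpos) (measure_ball_pos _ _ hr).ne'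

theorem returns [CompactSpace P] [T2Space P] (c : CD β R) {g : P → P} (hg : St β g)
    (hinj : Function.Injective g) {x : P} {U : Set P} (hU : U ∈ 𝓝 x) :
    ∃ n, 1 ≤ n ∧ ∃ y ∈ U, g^[n] y ∈ U := by
  by_contra hcon
  push Not at hcon
  let _ : MeasurableSpace E := borel E
  have : BorelSpace E := ⟨rfl⟩
  set bs := finBasis ℝ E with hbs
  obtain ⟨t, V, hVc, hVs, hVt⟩ := exists_cover E P
  -- a compact neighbourhood
  obtain ⟨K, hK, hKc, hKs⟩ := exists_mem_nhds_isClosed_subset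
    (Filter.inter_mem hU (extChartAt_source_mem_nhds (I := 𝓘(ℝ, E)) x))
  have hKU : K ⊆ U := fun y hy => (hKs hy).1
  have hKx : K ⊆ (extChartAt 𝓘(ℝ, E) x).source := fun y hy => (hKs hy).2
  have hginj : ∀ n, Function.Injective (g^[n]) := fun n => hinj.iterate n
  have hgc : ∀ n, Continuous (g^[n]) := fun n => (St.iterate hg n).smooth.continuous
  have hdisj : ∀ m n, m < n → Disjoint (g^[m] '' K) (g^[n] '' K) := by
    intro m n hmn
    rw [Set.disjoint_left]
    rintro _ ⟨y, hy, rfl⟩ ⟨z, hz, hzy⟩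
    obtain ⟨k, rfl⟩ : ∃ k, n = m + k := ⟨n - m, by omega⟩
    rw [Function.iterate_add_apply] at hzy
    have h1 := hginj m hzy
    exact hcon k (by omega) z (hKU hz) (by rw [h1]; exact hKU hy)
  -- the pieces
  let D : ℕ → P → Set E := fun n a => extChartAt 𝓘(ℝ, E) x '' (K ∩ (g^[n]) ⁻¹' (V a))
  let J : ℕ → P → Set E := fun n a => extChartAt 𝓘(ℝ, E) a '' ((g^[n] '' K) ∩ V a)
  have hKcomp : IsCompact K := hKc.isCompact
  have hDc : ∀ n a, IsCompact (D n a) := fun n a =>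
    ((hKc.inter ((hVc a).preimage (hgc n))).isCompact).image_of_continuousOn
      ((continuousOn_extChartAt x).mono fun y hy => hKx hy.1)
  have hJc : ∀ n a, IsCompact (J n a) := fun n a =>
    (((hKcomp.image (hgc n)).isClosed.inter (hVc a)).isCompact).image_of_continuousOn
      ((continuousOn_extChartAt a).mono fun y hy => hVs a hy.2)
  have hDt : ∀ n a, D n a ⊆ (extChartAt 𝓘(ℝ, E) x).target := by
    rintro n a _ ⟨y, hy, rfl⟩
    exact (extChartAt 𝓘(ℝ, E) x).map_source (hKx hy.1)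
  have hDs : ∀ n a, ∀ p ∈ D n a, g^[n] ((extChartAt 𝓘(ℝ, E) x).symm p) ∈
      (extChartAt 𝓘(ℝ, E) a).source := by
    rintro n a _ ⟨y, hy, rfl⟩
    rw [(extChartAt 𝓘(ℝ, E) x).left_inv (hKx hy.1)]
    exact hVs a hy.2
  have hDJ : ∀ n a, ch2 x a (g^[n]) '' D n a = J n a := by
    intro n a
    ext q
    constructor
    · rintro ⟨_, ⟨y, hy, rfl⟩, rfl⟩
      refine ⟨g^[n] y, ⟨⟨y, hy.1, rfl⟩, hy.2⟩, ?_⟩
      rw [ch2_chart (hKx hy.1)]
    · rintro ⟨_, ⟨⟨y, hy, rfl⟩, hyV⟩, rfl⟩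
      refine ⟨extChartAt 𝓘(ℝ, E) x y, ⟨y, ⟨hy, hyV⟩, rfl⟩, ?_⟩
      rw [ch2_chart (hKx hy)]
  -- volumes
  let ν : P → Measure E := fun a =>
    bs.addHaar.withDensity (fun p => ENNReal.ofReal (dens β bs a p))
  have hν : ∀ a (S : Set E), MeasurableSet S →
      ν a S = ∫⁻ p in S, ENNReal.ofReal (dens β bs a p) ∂bs.addHaar := fun a S hS =>
    withDensity_apply _ hS
  have hvol : ∀ n a, ν a (J n a) = ν x (D n a) := by
    intro n a
    rw [hν a _ (hJc n a).measurableSet, hν x _ (hDc n a).measurableSet, ← hDJ n a]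
    exact lint_ch2 bs c (St.iterate hg n) (hginj n) x a (hDc n a).measurableSet (hDt n a)
      (hDs n a)
  have hKim : IsCompact (extChartAt 𝓘(ℝ, E) x '' K) :=
    hKcomp.image_of_continuousOn ((continuousOn_extChartAt x).mono hKx)
  have hc0 : 0 < ν x (extChartAt 𝓘(ℝ, E) x '' K) := by
    rw [hν x _ hKim.measurableSet]
    exact lint_pos bs c x (mem_extChartAt_target x)
      (extChartAt_image_nhds_mem_nhds_of_boundaryless (by exact hK))
  have hsum : ∀ n, ν x (extChartAt 𝓘(ℝ, E) x '' K) ≤ ∑ a ∈ t, ν a (J n a) := by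
    intro n
    have h1 : extChartAt 𝓘(ℝ, E) x '' K ⊆ ⋃ a ∈ t, D n a := by
      rintro _ ⟨y, hy, rfl⟩
      obtain ⟨a, ha, hya⟩ := hVt (g^[n] y)
      exact mem_biUnion ha ⟨y, ⟨hy, hya⟩, rfl⟩
    refine (measure_mono h1).trans ((measure_biUnion_finset_le t (D n)).trans ?_)
    exact Finset.sum_le_sum fun a _ => (hvol n a).ge
  have hVim : ∀ a, IsCompact (extChartAt 𝓘(ℝ, E) a '' V a) := fun a =>
    ((hVc a).isCompact).image_of_continuousOn ((continuousOn_extChartAt a).mono (hVs a))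
  have hJd : ∀ a, Pairwise (Function.onFun Disjoint fun n => J n a) := by
    intro a
    have h1 : ∀ m n, m < n → Disjoint (J m a) (J n a) := by
      intro m n hmn
      rw [Set.disjoint_left]
      rintro _ ⟨y, hy, rfl⟩ ⟨z, hz, hzy⟩
      have h2 := (extChartAt 𝓘(ℝ, E) a).injOn (hVs a hz.2) (hVs a hy.2) hzy
      rw [h2] at hz
      exact Set.disjoint_left.1 (hdisj m n hmn) hy.1 hz.1
    intro m n hmn
    rcases lt_or_gt_of_ne hmn with h | h
    · exact h1 m n h
    · exact (h1 n m h).symm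
  have htot : ∀ a, ∑' n, ν a (J n a) ≤ ν a (extChartAt 𝓘(ℝ, E) a '' V a) := by
    intro a
    rw [← measure_iUnion (hJd a) (fun n => (hJc n a).measurableSet)]
    refine measure_mono (iUnion_subset fun n => ?_)
    exact image_mono inter_subset_right
  have hfin : ∑ a ∈ t, ν a (extChartAt 𝓘(ℝ, E) a '' V a) < ⊤ := by
    rw [ENNReal.sum_lt_top]
    intro a _
    rw [hν a _ (hVim a).measurableSet]
    refine lint_lt_top bs c a (hVim a) ?_
    rintro _ ⟨y, hy, rfl⟩
    exact (extChartAt 𝓘(ℝ, E) a).map_source (hVs a hy)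
  have h1 : ∑' _ : ℕ, ν x (extChartAt 𝓘(ℝ, E) x '' K) ≤
      ∑ a ∈ t, ν a (extChartAt 𝓘(ℝ, E) a '' V a) := by
    refine (ENNReal.tsum_le_tsum hsum).trans ?_
    rw [Summable.tsum_finsetSum (fun a _ => ENNReal.summable)]
    exact Finset.sum_le_sum fun a _ => htot a
  rw [ENNReal.tsum_const_eq_top_of_ne_zero hc0.ne'] at h1
  exact absurd (lt_of_le_of_lt h1 hfin) (lt_irrefl _)

end Pool.Agent.K4H64.We
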