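import Mathlib
import Pool.Agent.K4H64.We.Rec
import Pool.Agent.K4H64.We.Close2

/-! Strict contact maps which do not decrease a quadratic form, and increase it at one point. -/

open scoped Topology ContDiff Manifold
open Set Metric Bundle Filter Pool.Agent.Helper186 Pool.Agent.H826R2.Wein Pool.Agent.W671.WU
open Pool.Agent.R774.Root Pool.Agent.R774.Hyp

noncomputable section

namespace Pool.Agent.K4H64.We

set_option linter.unusedSectionVars false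

universe u

variable {E : Type u} [NormedAddCommGroup E] [NormedSpace ℝ E] [FiniteDimensional ℝ E]

/-- positivity on a hyperplane is open -/
lemma pos_near {Φ₁ Φ₂ : E → E →L[ℝ] E →L[ℝ] ℝ} {b : E → E →L[ℝ] ℝ} {p₀ : E}
    (hΦ₁ : ContinuousAt Φ₁ p₀) (hΦ₂ : ContinuousAt Φ₂ p₀) (hb : ContinuousAt b p₀)
    (h : ∀ z, b p₀ z = 0 → z ≠ 0 → Φ₂ p₀ z z < Φ₁ p₀ z z) :
    ∃ κ > 0, ∀ᶠ p in 𝓝 p₀, ∀ z, b p z = 0 → Φ₂ p z z + κ * ‖z‖ ^ 2 ≤ Φ₁ p z z := by
  have : ProperSpace E := FiniteDimensional.proper ℝ E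
  obtain ⟨Ψ, hΨ⟩ : ∃ Ψ : E → E → ℝ, ∀ p z, Ψ p z = Φ₁ p z z - Φ₂ p z z := ⟨_, fun _ _ => rfl⟩
  have hΦc : ∀ z : E, ContinuousAt (fun q : E × E => Ψ q.1 q.2) (p₀, z) := by
    intro z
    have h1 : ContinuousAt (fun q : E × E => Φ₁ q.1) (p₀, z) :=
      ContinuousAt.comp (x := ((p₀, z) : E × E)) (f := Prod.fst) (g := Φ₁) hΦ₁ continuousAt_fst
    have h2 : ContinuousAt (fun q : E × E => Φ₂ q.1) (p₀, z) :=
      ContinuousAt.comp (x := ((p₀, z) : E × E)) (f := Prod.fst) (g := Φ₂) hΦ₂ continuousAt_fst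
    simp only [hΨ]
    exact ((h1.clm_apply continuousAt_snd).clm_apply continuousAt_snd).sub
      ((h2.clm_apply continuousAt_snd).clm_apply continuousAt_snd)
  have hbc : ∀ z : E, ContinuousAt (fun q : E × E => b q.1 q.2) (p₀, z) := by
    intro z
    have h1 : ContinuousAt (fun q : E × E => b q.1) (p₀, z) :=
      ContinuousAt.comp (x := ((p₀, z) : E × E)) (f := Prod.fst) (g := b) hb continuousAt_fst
    exact h1.clm_apply continuousAt_snd
  obtain ⟨κ, hκ, hκ2⟩ : ∃ κ > 0, ∀ z : E, ‖z‖ = 1 → b p₀ z = 0 → κ < Ψ p₀ z := by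
    set T : Set E := sphere (0:E) 1 ∩ {z | b p₀ z = 0} with hT
    have hTc : IsCompact T := (isCompact_sphere 0 1).inter_right
      (isClosed_eq (b p₀).continuous continuous_const)
    rcases T.eq_empty_or_nonempty with hemp | hne
    · refine ⟨1, one_pos, fun z hz1 hz2 => ?_⟩
      have : z ∈ T := ⟨by rw [mem_sphere_zero_iff_norm]; exact hz1, hz2⟩
      rw [hemp] at this
      exact this.elim
    · have hcont : Continuous (fun z => Ψ p₀ z) := by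
        simp only [hΨ]
        exact ((Φ₁ p₀).continuous.clm_apply continuous_id).sub
          ((Φ₂ p₀).continuous.clm_apply continuous_id)
      obtain ⟨z₀, hz₀, hmin⟩ := hTc.exists_isMinOn hne hcont.continuousOn
      have hz₀1 : ‖z₀‖ = 1 := by
        have := hz₀.1
        rwa [mem_sphere_zero_iff_norm] at this
      have hpos : 0 < Ψ p₀ z₀ := by
        rw [hΨ]
        exact sub_pos.2 (h z₀ hz₀.2 (by
          intro h0
          rw [h0, norm_zero] at hz₀1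
          exact zero_ne_one hz₀1))
      refine ⟨Ψ p₀ z₀ / 2, by linarith, fun z hz1 hz2 => ?_⟩
      have h1 : Ψ p₀ z₀ ≤ Ψ p₀ z :=
        hmin (show z ∈ T from ⟨by rw [mem_sphere_zero_iff_norm]; exact hz1, hz2⟩)
      linarith
  have h1 : ∀ᶠ p in 𝓝 p₀, ∀ z ∈ sphere (0:E) 1, b p z = 0 → κ < Ψ p z := by
    refine (isCompact_sphere (0:E) 1).eventually_forall_of_forall_eventually
      (P := fun p z => b p z = 0 → κ < Ψ p z) ?_
    intro z hz
    rw [mem_sphere_zero_iff_norm] at hz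
    by_cases hz0 : b p₀ z = 0
    · have h2 := (hΦc z).eventually (lt_mem_nhds (hκ2 z hz hz0))
      filter_upwards [h2] with q hq _
      exact hq
    · have h2 := (hbc z).eventually_ne hz0
      filter_upwards [h2] with q hq h3
      exact absurd h3 hq
  refine ⟨κ, hκ, ?_⟩
  filter_upwards [h1] with p hp z hz
  by_cases hz0 : z = 0
  · subst hz0
    simp
  · have hzn : ‖z‖ ≠ 0 := norm_ne_zero_iff.2 hz0
    have h2 := hp (‖z‖⁻¹ • z) (by
      rw [mem_sphere_zero_iff_norm, norm_smul, norm_inv, norm_norm, inv_mul_cancel₀ hzn])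
      (by rw [map_smul, hz, smul_zero])
    simp only [hΨ, map_smul, _root_.smul_apply, smul_eq_mul] at h2
    have h3 : 0 < ‖z‖ ^ 2 := by positivity
    have h4 := mul_lt_mul_of_pos_left h2 h3
    have h6 : ‖z‖ ^ 2 * (‖z‖⁻¹ * (‖z‖⁻¹ * Φ₁ p z z) - ‖z‖⁻¹ * (‖z‖⁻¹ * Φ₂ p z z)) =
        Φ₁ p z z - Φ₂ p z z := by
      field_simp
    rw [h6] at h4
    linarith

variable {P : Type*} [TopologicalSpace P] [ChartedSpace E P] [IsManifold 𝓘(ℝ, E) ∞ P]
  {F : Type*} [NormedAddCommGroup F] [NormedSpace ℝ F]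
  {β : (x : P) → TangentSpace 𝓘(ℝ, E) x →L[ℝ] ℝ}
  {R : (x : P) → TangentSpace 𝓘(ℝ, E) x} {Fl : P → ℝ → P}

variable (E) in
/-- the quadratic form -/
def Qf (B : P → F →L[ℝ] F →L[ℝ] ℝ) (e : P → F) (y : P) (v : E) : ℝ :=
  B y (dv E e y v) (dv E e y v)

lemma dv_comp {G : Type*} [NormedAddCommGroup G] [NormedSpace ℝ G] {φ : P → P} {e : P → G}
    (h1 : ContMDiff 𝓘(ℝ, E) 𝓘(ℝ, E) ∞ φ)
    (h2 : ContMDiff 𝓘(ℝ, E) 𝓘(ℝ, G) ∞ e) (y : P) (v : E) :
    dv E (fun x => e (φ x)) y v = dv E e (φ y) (dm E φ y v) := by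
  have h3 : mfderiv 𝓘(ℝ, E) 𝓘(ℝ, G) (fun x => e (φ x)) y =
      (mfderiv 𝓘(ℝ, E) 𝓘(ℝ, G) e (φ y)).comp (mfderiv 𝓘(ℝ, E) 𝓘(ℝ, E) φ y) :=
    mfderiv_comp y (h2.mdifferentiableAt (by simp)) (h1.mdifferentiableAt (by simp))
  exact DFunLike.congr_fun h3 v

lemma Ql_eq {B : P → F →L[ℝ] F →L[ℝ] ℝ} {e : P → F} (he : ContMDiff 𝓘(ℝ, E) 𝓘(ℝ, F) ∞ e)
    {a : P} {p : E} (hp : p ∈ (extChartAt 𝓘(ℝ, E) a).target) (z : E) :
    Ql B e a p z z = Qf E B e ((extChartAt 𝓘(ℝ, E) a).symm p) (ds a p z) := by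
  rw [Ql_apply, fderiv_cf a he hp]
  rfl

lemma Ql_ch2 {B : P → F →L[ℝ] F →L[ℝ] ℝ} {e : P → F} (he : ContMDiff 𝓘(ℝ, E) 𝓘(ℝ, F) ∞ e)
    {a : P} {p : E} (hp : p ∈ (extChartAt 𝓘(ℝ, E) a).target) {φ : P → P}
    (hφ : ContMDiff 𝓘(ℝ, E) 𝓘(ℝ, E) ∞ φ)
    (hφp : φ ((extChartAt 𝓘(ℝ, E) a).symm p) ∈ (extChartAt 𝓘(ℝ, E) a).source) (z : E) :
    Ql B e a (ch2 a a φ p) (fderiv ℝ (ch2 a a φ) p z) (fderiv ℝ (ch2 a a φ) p z) =
      Qf E B e (φ ((extChartAt 𝓘(ℝ, E) a).symm p))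
        (dm E φ ((extChartAt 𝓘(ℝ, E) a).symm p) (ds a p z)) := by
  rw [Ql_apply, fderiv_cf_ch2 a a he hφ hp hφp z]
  have h1 : (extChartAt 𝓘(ℝ, E) a).symm (ch2 a a φ p) = φ ((extChartAt 𝓘(ℝ, E) a).symm p) :=
    (extChartAt 𝓘(ℝ, E) a).left_inv hφp
  rw [h1]
  rfl

/-- monotonicity on an invariant set, iterated -/
lemma mono_iter {g : P → P} (hg : St β g) {W : Set P} (hgW : MapsTo g W W)
    {B : P → F →L[ℝ] F →L[ℝ] ℝ} {e : P → F}
    (mono : ∀ y ∈ W, ∀ v : E, β y v = 0 → Qf E B e y v ≤ Qf E B e (g y) (dm E g y v))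
    (n : ℕ) : ∀ y ∈ W, ∀ v : E, β y v = 0 →
      Qf E B e y v ≤ Qf E B e (g^[n] y) (dm E (g^[n]) y v) := by
  induction n with
  | zero =>
    intro y _ v _
    have h1 : dm E (g^[0]) y v = v := by
      have h2 : mfderiv 𝓘(ℝ, E) 𝓘(ℝ, E) (fun x : P => x) y =
        ContinuousLinearMap.id ℝ (TangentSpace 𝓘(ℝ, E) y) := mfderiv_id
      exact DFunLike.congr_fun h2 v
    rw [h1]
    exact le_rfl
  | succ n ih =>
    intro y hy v hv
    have h1 := ih y hy v hv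
    have hn := St.iterate hg n
    have h2 := mono (g^[n] y) (hgW.iterate n hy) (dm E (g^[n]) y v)
      ((hn.strict y v).trans hv)
    rw [← dm_comp hn.smooth hg.smooth] at h2
    have h3 : (fun x => g (g^[n] x)) = g^[n + 1] := by
      funext x; rw [Function.iterate_succ_apply']
    have h4 : g (g^[n] y) = g^[n + 1] y := by rw [Function.iterate_succ_apply']
    rw [h3, h4] at h2
    exact h1.trans h2

/-- **one step strict**: closed Reeb orbits near a point of strict increase -/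
theorem closed_of_inc [T2Space P] [CompactSpace P] (c : CD β R) (h : RF β R Fl)
    {g : P → P} (hg : St β g) (hinj : Function.Injective g) {W : Set P} (hW : IsOpen W)
    (hgW : MapsTo g W W) {B : P → F →L[ℝ] F →L[ℝ] ℝ} (hB : ContinuousOn B W) {e : P → F}
    (he : ContMDiff 𝓘(ℝ, E) 𝓘(ℝ, F) ∞ e)
    (mono : ∀ y ∈ W, ∀ v : E, β y v = 0 → Qf E B e y v ≤ Qf E B e (g y) (dm E g y v))
    {x : P} (hx : x ∈ W)
    (hinc : ∀ v : E, β x v = 0 → v ≠ 0 → Qf E B e x v < Qf E B e (g x) (dm E g x v))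
    {U : Set P} (hU : U ∈ 𝓝 x) : ∃ y ∈ U, ∃ T, 0 < T ∧ Fl y T = y := by
  obtain ⟨a, ha⟩ : ∃ a : P, a = x := ⟨_, rfl⟩
  have hxs : x ∈ (extChartAt 𝓘(ℝ, E) a).source := by rw [ha]; exact mem_extChartAt_source x
  obtain ⟨p₀, hp₀⟩ : ∃ p₀ : E, p₀ = extChartAt 𝓘(ℝ, E) a x := ⟨_, rfl⟩
  have hpt : p₀ ∈ (extChartAt 𝓘(ℝ, E) a).target := by
    rw [hp₀]; exact (extChartAt 𝓘(ℝ, E) a).map_source hxs
  have hpx : (extChartAt 𝓘(ℝ, E) a).symm p₀ = x := by
    rw [hp₀]; exact (extChartAt 𝓘(ℝ, E) a).left_inv hxs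
  have hBx : ContinuousAt B x := hB.continuousAt (hW.mem_nhds hx)
  have hBg : ContinuousAt (fun y => B (g y)) x :=
    ContinuousAt.comp (g := B) (hB.continuousAt (hW.mem_nhds (hgW hx)))
      hg.smooth.continuous.continuousAt
  have heg : ContMDiff 𝓘(ℝ, E) 𝓘(ℝ, F) ∞ (fun y => e (g y)) := he.comp hg.smooth
  have hQg : ∀ (y : P) (v : E), Qf E (fun y => B (g y)) (fun y => e (g y)) y v =
      Qf E B e (g y) (dm E g y v) := by
    intro y v
    unfold Qf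
    rw [dv_comp hg.smooth he]
  -- the increase near `x`
  obtain ⟨κ, hκ, hev⟩ := pos_near (contAt_Ql (B := fun y => B (g y)) heg a hpt
      (by rw [hpx]; exact hBg)) (contAt_Ql he a hpt (by rw [hpx]; exact hBx))
      (contAt_b c a hpt) (by
    intro z hz hz0
    rw [Ql_eq heg hpt, Ql_eq he hpt, hQg]
    have h1 : ∀ x' : P, x' = x → ∀ v : E, β x' v = 0 → v ≠ 0 →
        Qf E B e x' v < Qf E B e (g x') (dm E g x' v) := by
      rintro _ rfl; exact hinc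
    exact h1 _ hpx _ hz (fun h0 => hz0 (ds_inj hpt h0)))
  have hWev : ∀ᶠ p in 𝓝 p₀, (extChartAt 𝓘(ℝ, E) a).symm p ∈ W :=
    ((continuousOn_extChartAt_symm a).continuousAt
      ((isOpen_extChartAt_target a).mem_nhds hpt)) (by rw [hpx]; exact hW.mem_nhds hx)
  have hTev : ∀ᶠ p in 𝓝 p₀, p ∈ (extChartAt 𝓘(ℝ, E) a).target :=
    (isOpen_extChartAt_target a).mem_nhds hpt
  obtain ⟨r₁, hr₁, hball⟩ := Metric.eventually_nhds_iff.1 (hev.and (hWev.and hTev))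
  have hr₀ : 0 < r₁ / 2 := by positivity
  have hball' : ∀ p ∈ closedBall p₀ (r₁ / 2), (∀ z, chartForm 𝓘(ℝ, E) β a p z = 0 →
      Ql B e a p z z + κ * ‖z‖ ^ 2 ≤ Ql (fun y => B (g y)) (fun y => e (g y)) a p z z) ∧
      (extChartAt 𝓘(ℝ, E) a).symm p ∈ W ∧ p ∈ (extChartAt 𝓘(ℝ, E) a).target := by
    intro p hp
    rw [mem_closedBall] at hp
    exact hball (lt_of_le_of_lt hp (by linarith))
  obtain ⟨δ, hδ, hclose⟩ := closed_near c h he a hpt (B := B) (by rw [hpx]; exact hBx) hκ hr₀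
    (U := U) (by rw [hpx]; exact hU)
  -- a return
  have hδU : (extChartAt 𝓘(ℝ, E) a).source ∩ (extChartAt 𝓘(ℝ, E) a) ⁻¹' ball p₀ δ ∈ 𝓝 x := by
    refine ((continuousOn_extChartAt a).isOpen_inter_preimage (isOpen_extChartAt_source a)
      isOpen_ball).mem_nhds ⟨hxs, ?_⟩
    rw [mem_preimage, ← hp₀]
    exact mem_ball_self hδ
  obtain ⟨n, hn, y, hy, hyn⟩ := returns c hg hinj hδU
  obtain ⟨m, rfl⟩ : ∃ m, n = m + 1 := ⟨n - 1, by omega⟩
  have hsy : (extChartAt 𝓘(ℝ, E) a).symm (extChartAt 𝓘(ℝ, E) a y) = y :=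
    (extChartAt 𝓘(ℝ, E) a).left_inv hy.1
  refine hclose (g^[m + 1]) (St.iterate hg (m + 1)) ?_ (extChartAt 𝓘(ℝ, E) a y) ?_ ?_ ?_
  · intro p hp hps _ z hz
    obtain ⟨h1, h2, h3⟩ := hball' p hp
    have h4 := h1 z hz
    rw [Ql_eq heg h3, hQg] at h4
    have h5 := mono_iter hg hgW mono m (g ((extChartAt 𝓘(ℝ, E) a).symm p)) (hgW h2)
      (dm E g ((extChartAt 𝓘(ℝ, E) a).symm p) (ds a p z))
      ((hg.strict _ _).trans hz)
    rw [← dm_comp hg.smooth (St.iterate hg m).smooth] at h5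
    have h6 : (fun x => g^[m] (g x)) = g^[m + 1] := by
      funext x; rw [Function.iterate_succ_apply]
    have h7 : ∀ x, g^[m] (g x) = g^[m + 1] x := fun x => by rw [Function.iterate_succ_apply]
    rw [h6, h7] at h5
    rw [Ql_ch2 he h3 (St.iterate hg (m + 1)).smooth hps]
    linarith
  · have := hy.2
    rw [mem_preimage, mem_ball, dist_eq_norm] at this
    exact this.le
  · rw [hsy]; exact hyn.1
  · have := hyn.2
    rw [mem_preimage, mem_ball, dist_eq_norm] at this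
    have h1 : ch2 a a (g^[m + 1]) (extChartAt 𝓘(ℝ, E) a y) =
        extChartAt 𝓘(ℝ, E) a (g^[m + 1] y) := ch2_chart hy.1
    rw [h1]
    exact this.le

end Pool.Agent.K4H64.We
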