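import Mathlib
import Pool.Agent.K4H64.We.Mono
import Pool.Agent.R774.Hyp7

/-! Closed Reeb orbits from strict contact maps which do not decrease a quadratic form on the contact
planes, and eventually increase it strictly at one point: the statement in terms of the elementary
definitions. -/

open scoped Topology ContDiff Manifold
open Set Metric Filter Pool.Agent.Helper186 Pool.Agent.H826R2 Pool.Agent.H826R2.WStmt
open Pool.Agent.W671 Pool.Agent.W671.RStmt Pool.Agent.R774.RootStmt Pool.Agent.R774.HypStmt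
open Pool.Agent.R774.Root Pool.Agent.R774.Hyp Pool.Agent.H826R2.Wein Pool.Agent.W671.WU

noncomputable section

set_option linter.unusedSectionVars false

namespace Pool.Agent.K4H64.We

universe u

section

variable {E : Type u} [NormedAddCommGroup E] [NormedSpace ℝ E] [FiniteDimensional ℝ E]
  {P : Type*} [TopologicalSpace P] [ChartedSpace E P] [IsManifold 𝓘(ℝ, E) ∞ P]
  {F : Type*} [NormedAddCommGroup F] [NormedSpace ℝ F]
  {β : (x : P) → TangentSpace 𝓘(ℝ, E) x →L[ℝ] ℝ}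
  {R : (x : P) → TangentSpace 𝓘(ℝ, E) x} {Fl : P → ℝ → P}

/-- the derivative as a continuous linear map between vector spaces -/
lemma dm_lin (φ : P → P) (x : P) : ∃ L : E →L[ℝ] E, ∀ v, dm E φ x v = L v :=
  ⟨mfderiv 𝓘(ℝ, E) 𝓘(ℝ, E) φ x, fun _ => rfl⟩

lemma dv_lin (e : P → F) (x : P) : ∃ L : E →L[ℝ] F, ∀ v, dv E e x v = L v :=
  ⟨mfderiv 𝓘(ℝ, E) 𝓘(ℝ, F) e x, fun _ => rfl⟩

lemma form_lin (x : P) : ∃ L : E →L[ℝ] ℝ, ∀ v : E, β x v = L v := ⟨β x, fun _ => rfl⟩

/-- eventual strict increase at a point is increase by one iterate -/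
lemma exists_iterate_inc (c : CD β R) {g : P → P} (hg : St β g) {W : Set P} (hgW : MapsTo g W W)
    {B : P → F →L[ℝ] F →L[ℝ] ℝ} {e : P → F}
    (mono : ∀ y ∈ W, ∀ v : E, β y v = 0 → Qf E B e y v ≤ Qf E B e (g y) (dm E g y v))
    {x : P} (hx : x ∈ W)
    (hinc : ∀ v : E, β x v = 0 → v ≠ 0 → ∃ n : ℕ,
      Qf E B e x v < Qf E B e (g^[n] x) (dm E (g^[n]) x v)) :
    ∃ N : ℕ, ∀ v : E, β x v = 0 → v ≠ 0 →
      Qf E B e x v < Qf E B e (g^[N] x) (dm E (g^[N]) x v) := by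
  have : ProperSpace E := FiniteDimensional.proper ℝ E
  obtain ⟨b, hb⟩ := form_lin (β := β) (E := E) x
  have hL : ∀ n : ℕ, ∃ L : E →L[ℝ] F, ∀ v, dv E e (g^[n] x) (dm E (g^[n]) x v) = L v := by
    intro n
    obtain ⟨L₁, h1⟩ := dm_lin (E := E) (g^[n]) x
    obtain ⟨L₂, h2⟩ := dv_lin (E := E) e (g^[n] x)
    exact ⟨L₂.comp L₁, fun v => by rw [h1, h2]; rfl⟩
  choose L hL using hL
  obtain ⟨L₀, hL₀⟩ := dv_lin (E := E) e x
  have hq : ∀ n v, Qf E B e (g^[n] x) (dm E (g^[n]) x v) = B (g^[n] x) (L n v) (L n v) := by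
    intro n v
    unfold Qf
    rw [hL]
  have hq0 : ∀ v, Qf E B e x v = B x (L₀ v) (L₀ v) := by
    intro v
    unfold Qf
    rw [hL₀]
  have hcomp : IsCompact (sphere (0:E) 1 ∩ {v | b v = 0}) :=
    (isCompact_sphere 0 1).inter_right (isClosed_eq b.continuous continuous_const)
  obtain ⟨t, ht⟩ := hcomp.elim_finite_subcover
    (fun n : ℕ => {v : E | B x (L₀ v) (L₀ v) < B (g^[n] x) (L n v) (L n v)})
    (fun n => isOpen_lt
      (((B x).continuous.comp L₀.continuous).clm_apply L₀.continuous)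
      (((B (g^[n] x)).continuous.comp (L n).continuous).clm_apply (L n).continuous))
    (fun v hv => by
      rw [mem_iUnion]
      have hv0 : v ≠ 0 := by
        rintro rfl
        have := hv.1
        rw [mem_sphere_zero_iff_norm, norm_zero] at this
        exact zero_ne_one this
      obtain ⟨n, hn⟩ := hinc v ((hb v).trans hv.2) hv0
      refine ⟨n, ?_⟩
      rw [hq, hq0] at hn
      exact hn)
  refine ⟨t.sup id, fun v hv hv0 => ?_⟩
  have hvn : 0 < ‖v‖ := norm_pos_iff.2 hv0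
  have hbv : b v = 0 := (hb v).symm.trans hv
  have h1 : ‖v‖⁻¹ • v ∈ sphere (0:E) 1 ∩ {v | b v = 0} := by
    refine ⟨?_, ?_⟩
    · rw [mem_sphere_zero_iff_norm, norm_smul, norm_inv, norm_norm, inv_mul_cancel₀ hvn.ne']
    · rw [mem_setOf_eq, map_smul, hbv, smul_zero]
  have h2 := ht h1
  simp only [mem_iUnion, exists_prop] at h2
  obtain ⟨n, hn, h3⟩ := h2
  rw [mem_setOf_eq] at h3
  simp only [map_smul, _root_.smul_apply, smul_eq_mul] at h3
  have h4 : B x (L₀ v) (L₀ v) < B (g^[n] x) (L n v) (L n v) := by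
    have h5 : 0 < ‖v‖⁻¹ := by positivity
    exact lt_of_mul_lt_mul_left (lt_of_mul_lt_mul_left h3 h5.le) h5.le
  have hle : n ≤ t.sup id := Finset.le_sup (f := id) hn
  obtain ⟨m, hm⟩ : ∃ m, t.sup id = m + n := ⟨t.sup id - n, by omega⟩
  have hn' := St.iterate hg n
  have h5 := mono_iter hg hgW mono m (g^[n] x) (hgW.iterate n hx) (dm E (g^[n]) x v)
    ((hn'.strict x v).trans hv)
  rw [← dm_comp hn'.smooth (St.iterate hg m).smooth] at h5
  have h6 : (fun x => g^[m] (g^[n] x)) = g^[t.sup id] := by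
    funext x; rw [hm, Function.iterate_add_apply]
  have h7 : g^[m] (g^[n] x) = g^[t.sup id] x := by rw [hm, Function.iterate_add_apply]
  rw [h6, h7] at h5
  rw [hq0]
  rw [hq] at h5
  exact h4.trans_le h5

theorem closed_of_eventual_inc [T2Space P] [CompactSpace P] (c : CD β R) (h : RF β R Fl)
    {g : P → P} (hg : St β g) (hinj : Function.Injective g) {W : Set P} (hW : IsOpen W)
    (hgW : MapsTo g W W) {B : P → F →L[ℝ] F →L[ℝ] ℝ} (hB : ContinuousOn B W) {e : P → F}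
    (he : ContMDiff 𝓘(ℝ, E) 𝓘(ℝ, F) ∞ e)
    (mono : ∀ y ∈ W, ∀ v : E, β y v = 0 → Qf E B e y v ≤ Qf E B e (g y) (dm E g y v))
    {x : P} (hx : x ∈ W)
    (hinc : ∀ v : E, β x v = 0 → v ≠ 0 → ∃ n : ℕ,
      Qf E B e x v < Qf E B e (g^[n] x) (dm E (g^[n]) x v))
    {U : Set P} (hU : U ∈ 𝓝 x) : ∃ y ∈ U, ∃ T, 0 < T ∧ Fl y T = y := by
  obtain ⟨N, hN⟩ := exists_iterate_inc c hg hgW mono hx hinc
  exact closed_of_inc c h (St.iterate hg N) (hinj.iterate N) hW (hgW.iterate N) hB he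
    (mono_iter hg hgW mono N) hx hN hU

end

section

variable {E : Type u} [NormedAddCommGroup E] [NormedSpace ℝ E] [FiniteDimensional ℝ E]
  {M : Type*} [TopologicalSpace M] [ChartedSpace E M] [IsManifold 𝓘(ℝ, E) ∞ M]
  {F : Type*} [NormedAddCommGroup F] [NormedSpace ℝ F]

theorem periodic_of_monotone [T2Space M] [CompactSpace M]
    (α : M → Cov E) (hα : WStmt.IsContact α) (R : M → E) (hR : WStmt.IsReeb α R)
    (g : M → M) (hg : IsStrict α g) (hinj : Function.Injective g)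
    (W : Set M) (hW : IsOpen W) (hgW : MapsTo g W W)
    (e : M → F) (he : ContMDiff 𝓘(ℝ, E) 𝓘(ℝ, F) ∞ e)
    (B : M → F →L[ℝ] F →L[ℝ] ℝ) (hB : ContinuousOn B W)
    (mono : ∀ y ∈ W, ∀ v : E, ev (α y) v = 0 →
      quad e B y v ≤ quad e B (g y) (D (E := E) (E' := E) g y v))
    (x : M) (hx : x ∈ W)
    (hinc : ∀ v : E, ev (α x) v = 0 → v ≠ 0 → ∃ n : ℕ,
      quad e B x v < quad e B (g^[n] x) (D (E := E) (E' := E) (g^[n]) x v))
    (U : Set M) (hU : U ∈ 𝓝 x) :
    ∃ (γ : ℝ → M) (T : ℝ), IsPeriodicOrbit R γ T ∧ γ 0 ∈ U := by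
  have : IsManifold 𝓘(ℝ, E) 1 M := IsManifold.of_le (n := ∞) (by simp)
  have cd : Wein.CD (toForm α) (fun x => (R x : TangentSpace 𝓘(ℝ, E) x)) :=
    ⟨hα.toWein, hR.toWein⟩
  have hRs := WU.smooth_reeb cd
  choose Fl hF0 hF using fun x : M => Wein.complete_of_compact hRs isCompact_univ
    (fun y hy => absurd (mem_univ y) hy) x
  have hRF := WU.RF.of cd hF0 hF
  obtain ⟨y, hy, T, hT, hyT⟩ := closed_of_eventual_inc cd hRF hg.toSt hinj hW hgW hB he
    (fun y hy v hv => mono y hy v hv) hx (fun v hv hv0 => hinc v hv hv0) hU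
  refine ⟨Fl y, T, ⟨hT, hF y, fun t => ?_⟩, ?_⟩
  · rw [add_comm, hRF.add, hyT]
  · rw [hF0]; exact hy

end

end Pool.Agent.K4H64.We
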